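import Pool.Agent.H720Z.Tame.Basic

set_option autoImplicit false
set_option maxHeartbeats 400000

namespace Pool.Agent.H720Z.Tame

open Set Filter Topology MeasureTheory

/-- Descending chain condition for primary groups with finite socle. -/
theorem dcc {Q : Type} [AddCommGroup Q] (p : ℕ) (S : ℕ → AddSubgroup Q) (hS : Antitone S)
    (hp : ∀ q ∈ S 0, ∃ e : ℕ, p ^ e • q = 0) (hfin : {q | q ∈ S 0 ∧ p • q = 0}.Finite) :
    ∃ N, ∀ n, N ≤ n → S N ≤ S n := by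
  classical
  -- heights stabilise
  have h1 : ∀ s : Q, ∃ N, ∀ n, N ≤ n → ∀ k : ℕ, (∃ c ∈ S N, p ^ k • c = s) →
      ∃ c ∈ S n, p ^ k • c = s := by
    intro s
    by_cases h : ∃ n k, ¬ ∃ c ∈ S n, p ^ k • c = s
    · have h' : ∃ k, ∃ n, ¬ ∃ c ∈ S n, p ^ k • c = s := by
        obtain ⟨n, k, h⟩ := h
        exact ⟨k, n, h⟩
      obtain ⟨N, hN⟩ := Nat.find_spec h'
      refine ⟨N, fun n _ k hk => ?_⟩
      by_contra hc
      have h2 : Nat.find h' ≤ k := Nat.find_min' h' ⟨n, hc⟩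
      apply hN
      obtain ⟨c, hc1, hc2⟩ := hk
      obtain ⟨d, rfl⟩ := Nat.exists_eq_add_of_le h2
      refine ⟨p ^ d • c, (S N).nsmul_mem hc1 _, ?_⟩
      rw [smul_smul, ← pow_add]; exact hc2
    · push Not at h
      exact ⟨0, fun n _ k _ => h n k⟩
  choose Nf hNf using h1
  obtain ⟨N, hN⟩ := (hfin.image Nf).bddAbove
  have h2 : ∀ s, s ∈ S 0 → p • s = 0 → ∀ n, N ≤ n → ∀ k : ℕ, (∃ c ∈ S N, p ^ k • c = s) →
      ∃ c ∈ S n, p ^ k • c = s := by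
    intro s hs hs' n hn k hk
    have h3 : Nf s ≤ N := hN ⟨s, ⟨hs, hs'⟩, rfl⟩
    apply hNf s n (h3.trans hn) k
    obtain ⟨c, hc1, hc2⟩ := hk
    exact ⟨c, hS h3 hc1, hc2⟩
  refine ⟨N, fun n hn => ?_⟩
  have h3 : ∀ e : ℕ, ∀ c ∈ S N, p ^ e • c = 0 → c ∈ S n := by
    intro e
    induction e with
    | zero =>
      intro c _ hc
      simp only [pow_zero, one_smul] at hc
      rw [hc]; exact (S n).zero_mem
    | succ e ih =>
      intro c hc hc0
      have h4 : p ^ e • c ∈ S 0 := hS (Nat.zero_le N) ((S N).nsmul_mem hc _)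
      have h5 : p • p ^ e • c = 0 := by rw [smul_smul, ← pow_succ', hc0]
      obtain ⟨c', hc1, hc2⟩ := h2 _ h4 h5 n hn e ⟨c, hc, rfl⟩
      have h6 : c - c' ∈ S n := ih _ ((S N).sub_mem hc (hS hn hc1)) (by rw [smul_sub, hc2, sub_self])
      simpa using (S n).add_mem h6 hc1
  intro c hc
  obtain ⟨e, he⟩ := hp c (hS (Nat.zero_le N) hc)
  exact h3 e c hc he

theorem mem_of_coprime {G : Type} [AddCommGroup G] (D : AddSubgroup G) (x : G)
    (h : ∀ p : ℕ, p.Prime → ∃ N : ℕ, Nat.Coprime N p ∧ N • x ∈ D) : x ∈ D := by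
  by_contra hx
  have h1 : addOrderOf (QuotientAddGroup.mk x : G ⧸ D) ≠ 1 := by
    rw [Ne, AddMonoid.addOrderOf_eq_one_iff, QuotientAddGroup.eq_zero_iff]
    exact hx
  obtain ⟨p, hp, hd⟩ := Nat.exists_prime_and_dvd h1
  obtain ⟨N, hN, hNx⟩ := h p hp
  have h2 : addOrderOf (QuotientAddGroup.mk x : G ⧸ D) ∣ N := by
    rw [addOrderOf_dvd_iff_nsmul_eq_zero, ← QuotientAddGroup.mk_nsmul, QuotientAddGroup.eq_zero_iff]
    exact hNx
  exact (Nat.Prime.coprime_iff_not_dvd hp).mp hN.symm (hd.trans h2)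

theorem mem_of_two {G : Type} [AddCommGroup G] (D : AddSubgroup G) (x : G) (a b : ℕ)
    (hab : Nat.Coprime a b) (ha : a • x ∈ D) (hb : b • x ∈ D) : x ∈ D := by
  apply mem_of_coprime D x
  intro p hp
  by_cases h : p ∣ a
  · refine ⟨b, ?_, hb⟩
    exact (Nat.Coprime.coprime_dvd_left h hab).symm
  · exact ⟨a, ((Nat.Prime.coprime_iff_not_dvd hp).mpr h).symm, ha⟩

/-- Elements killed modulo `V` by a number prime to `p`. -/
def Cp {G : Type} [AddCommGroup G] (V : AddSubgroup G) (p : ℕ) : AddSubgroup G where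
  carrier := {x | ∃ N : ℕ, Nat.Coprime N p ∧ N • x ∈ V}
  zero_mem' := ⟨1, by simp, by simp⟩
  add_mem' := by
    rintro x y ⟨N, hN, hx⟩ ⟨M, hM, hy⟩
    refine ⟨N * M, Nat.Coprime.mul_left hN hM, ?_⟩
    rw [smul_add]
    refine V.add_mem ?_ ?_
    · rw [mul_comm, mul_smul]; exact V.nsmul_mem hx _
    · rw [mul_smul]; exact V.nsmul_mem hy _
  neg_mem' := by
    rintro x ⟨N, hN, hx⟩
    exact ⟨N, hN, by rw [smul_neg]; exact V.neg_mem hx⟩

/-- Elements killed modulo `V` by a power of `p`. -/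
def Pp {G : Type} [AddCommGroup G] (V : AddSubgroup G) (p : ℕ) : AddSubgroup G where
  carrier := {x | ∃ e : ℕ, p ^ e • x ∈ V}
  zero_mem' := ⟨0, by simp⟩
  add_mem' := by
    rintro x y ⟨N, hx⟩ ⟨M, hy⟩
    refine ⟨N + M, ?_⟩
    rw [smul_add, pow_add]
    refine V.add_mem ?_ ?_
    · rw [mul_comm, mul_smul]; exact V.nsmul_mem hx _
    · rw [mul_smul]; exact V.nsmul_mem hy _
  neg_mem' := by
    rintro x ⟨N, hx⟩
    exact ⟨N, by rw [smul_neg]; exact V.neg_mem hx⟩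

section
variable {G : Type} [AddCommGroup G]

theorem le_Cp (V : AddSubgroup G) (p : ℕ) : V ≤ Cp V p := fun x hx => ⟨1, by simp, by simpa using hx⟩

theorem le_Pp (V : AddSubgroup G) (p : ℕ) : V ≤ Pp V p := fun x hx => ⟨0, by simpa using hx⟩

theorem Cp_mono {V W : AddSubgroup G} (h : V ≤ W) (p : ℕ) : Cp V p ≤ Cp W p := by
  rintro x ⟨N, hN, hx⟩
  exact ⟨N, hN, h hx⟩

theorem Pp_mono {V W : AddSubgroup G} (h : V ≤ W) (p : ℕ) : Pp V p ≤ Pp W p := by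
  rintro x ⟨N, hx⟩
  exact ⟨N, h hx⟩

theorem mem_of_Cp_Pp {V : AddSubgroup G} {p : ℕ} {x : G} (h1 : x ∈ Cp V p) (h2 : x ∈ Pp V p) :
    x ∈ V := by
  obtain ⟨N, hN, hx⟩ := h1
  obtain ⟨e, he⟩ := h2
  exact mem_of_two V x N (p ^ e) (Nat.Coprime.pow_right e hN) hx he

theorem Pp_le_Cp {V : AddSubgroup G} {p q : ℕ} (h : Nat.Coprime q p) : Pp V q ≤ Cp V p := by
  rintro x ⟨e, he⟩
  exact ⟨q ^ e, Nat.Coprime.pow_left e h, he⟩

theorem exists_comp {V : AddSubgroup G} {p : ℕ} (hp : p.Prime) {g : G} {N : ℕ} (hN : N ≠ 0)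
    (hg : N • g ∈ V) : ∃ h, h ∈ Pp V p ∧ g - h ∈ Cp V p := by
  obtain ⟨e, M, hM, rfl⟩ := Nat.exists_eq_pow_mul_and_not_dvd hN p hp.ne_one
  have hc : Nat.Coprime M p := ((Nat.Prime.coprime_iff_not_dvd hp).mpr hM).symm
  have hc2 : IsCoprime (M : ℤ) ((p ^ e : ℕ) : ℤ) :=
    Nat.isCoprime_iff_coprime.mpr (Nat.Coprime.pow_right e hc)
  obtain ⟨u, v, huv⟩ := hc2
  have hg' : ((p ^ e * M : ℕ) : ℤ) • g ∈ V := by rw [natCast_zsmul]; exact hg
  refine ⟨(u * M) • g, ⟨e, ?_⟩, ⟨M, hc, ?_⟩⟩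
  · have : p ^ e • (u * M) • g = u • ((p ^ e * M : ℕ) : ℤ) • g := by
      rw [← natCast_zsmul, smul_smul, smul_smul]; congr 1; push_cast; ring
    rw [this]; exact V.zsmul_mem hg' _
  · have : M • (g - (u * M) • g) = v • ((p ^ e * M : ℕ) : ℤ) • g := by
      have h1 : g - (u * M) • g = (v * ((p ^ e : ℕ) : ℤ)) • g := by
        have h2 : v * ((p ^ e : ℕ) : ℤ) = 1 - u * M := by linarith
        rw [h2, sub_smul, one_smul]
      rw [h1, ← natCast_zsmul, smul_smul, smul_smul]; congr 1; push_cast; ring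
    rw [this]; exact V.zsmul_mem hg' _

end

end Pool.Agent.H720Z.Tame
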