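import Mathlib

set_option autoImplicit false
set_option maxHeartbeats 400000

namespace Pool.Agent.H720Z.Tame

open Set Filter Topology MeasureTheory

/-- All continuous actions on Polish spaces have Borel orbit relation. -/
def IsTame (G : Type) [AddCommGroup G] [TopologicalSpace G] : Prop :=
  ∀ (X : Type) [TopologicalSpace X] [PolishSpace X] [AddAction G X] [ContinuousVAdd G X],
    @MeasurableSet (X × X) (borel (X × X)) {p : X × X | ∃ g : G, g +ᵥ p.1 = p.2}

/-- A decreasing neighbourhood basis of open subgroups. -/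
structure Basis (G : Type) [AddCommGroup G] [TopologicalSpace G] where
  V : ℕ → AddSubgroup G
  anti : Antitone V
  isOpen : ∀ m, IsOpen (V m : Set G)
  small : ∀ N ∈ 𝓝 (0 : G), ∃ m, (V m : Set G) ⊆ N

variable {G : Type} [AddCommGroup G] [TopologicalSpace G]

theorem exists_basis [PolishSpace G] [NonarchimedeanAddGroup G] : Nonempty (Basis G) := by
  obtain ⟨u, hu⟩ := (𝓝 (0 : G)).exists_antitone_basis
  have h1 : ∀ n, ∃ W : OpenAddSubgroup G, (W : Set G) ⊆ u n := fun n =>
    NonarchimedeanAddGroup.is_nonarchimedean _ (hu.mem n)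
  choose W hW using h1
  let V : ℕ → OpenAddSubgroup G := fun n => Nat.rec (W 0) (fun k A => A ⊓ W (k + 1)) n
  have hV : ∀ n, V (n + 1) = V n ⊓ W (n + 1) := fun n => rfl
  refine ⟨⟨fun n => (V n).toAddSubgroup, ?_, fun m => (V m).isOpen, ?_⟩⟩
  · apply antitone_nat_of_succ_le
    intro n x hx
    have hx' : x ∈ V (n + 1) := hx
    rw [hV] at hx'
    exact (OpenAddSubgroup.mem_inf.mp hx').1
  · intro N hN
    obtain ⟨m, hm⟩ := hu.mem_iff.mp hN
    refine ⟨m, fun x hx => hm (hW m ?_)⟩
    have hx' : x ∈ V m := hx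
    cases m with
    | zero => exact hx'
    | succ k =>
      rw [hV] at hx'
      exact (OpenAddSubgroup.mem_inf.mp hx').2

/-- Pass to a subsequence. -/
def Basis.sub (B : Basis G) (φ : ℕ → ℕ) (hφ : StrictMono φ) : Basis G where
  V := fun n => B.V (φ n)
  anti := fun _ _ h => B.anti (hφ.monotone h)
  isOpen := fun m => B.isOpen _
  small := fun N hN => by
    obtain ⟨m, hm⟩ := B.small N hN
    exact ⟨m, fun x hx => hm (B.anti (hφ.id_le m) hx)⟩

theorem countable_quot [PolishSpace G] [IsTopologicalAddGroup G] (V : AddSubgroup G)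
    (hV : IsOpen (V : Set G)) : Countable (G ⧸ V) := by
  obtain ⟨D, hD, hd⟩ := TopologicalSpace.exists_countable_dense G
  have : Countable D := hD.to_subtype
  refine Function.Surjective.countable (f := fun d : D => (QuotientAddGroup.mk d.1 : G ⧸ V)) ?_
  intro q
  obtain ⟨x, rfl⟩ := QuotientAddGroup.mk_surjective q
  have ho : IsOpen {y : G | -y + x ∈ V} := hV.preimage (by fun_prop)
  obtain ⟨y, hy1, hy2⟩ := hd.exists_mem_open ho ⟨x, by simp⟩
  exact ⟨⟨y, hy1⟩, QuotientAddGroup.eq.mpr hy2⟩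

theorem measurableSet_exists_sat [PolishSpace G] [IsTopologicalAddGroup G] {Z : Type}
    [MeasurableSpace Z] (V : AddSubgroup G) (hV : IsOpen (V : Set G)) (P : G → Z → Prop)
    (hm : ∀ g, MeasurableSet {z | P g z})
    (hs : ∀ g g' z, g' - g ∈ V → P g z → P g' z) : MeasurableSet {z | ∃ g, P g z} := by
  have := countable_quot V hV
  have e : {z | ∃ g, P g z} = ⋃ q : G ⧸ V, {z | P q.out z} := by
    ext z
    simp only [mem_setOf_eq, mem_iUnion]
    constructor
    · rintro ⟨g, hg⟩
      refine ⟨QuotientAddGroup.mk g, hs g _ z ?_ hg⟩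
      have h1 : (QuotientAddGroup.mk g : G ⧸ V) =
          QuotientAddGroup.mk (QuotientAddGroup.mk g : G ⧸ V).out := by simp
      have h2 := QuotientAddGroup.eq.mp h1
      rwa [neg_add_eq_sub] at h2
    · rintro ⟨q, hq⟩
      exact ⟨_, hq⟩
  rw [e]
  exact MeasurableSet.iUnion fun q => hm _

theorem Basis.closed [IsTopologicalAddGroup G] (B : Basis G) (m : ℕ) :
    IsClosed (B.V m : Set G) := AddSubgroup.isClosed_of_isOpen _ (B.isOpen m)

theorem Basis.chain (B : Basis G) (s : ℕ → G) (μ : ℕ → ℕ) (hμ : Monotone μ)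
    (hs : ∀ k, s (k + 1) - s k ∈ B.V (μ k)) :
    ∀ k l, k ≤ l → s l - s k ∈ B.V (μ k) := by
  intro k l hkl
  induction l, hkl using Nat.le_induction with
  | base => simp
  | succ l hl ih =>
    have : s (l + 1) - s k = (s (l + 1) - s l) + (s l - s k) := by abel
    rw [this]
    exact (B.V _).add_mem (B.anti (hμ hl) (hs l)) ih

/-- Completeness along the basis. -/
theorem Basis.complete [PolishSpace G] [IsTopologicalAddGroup G] (B : Basis G) (s : ℕ → G)
    (hs : ∀ k, s (k + 1) - s k ∈ B.V k) : ∃ g, ∀ k, g - s k ∈ B.V k := by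
  have hs' := B.chain s id monotone_id hs
  simp only [id] at hs'
  letI := TopologicalSpace.upgradeIsCompletelyMetrizable G
  have hsm : ∀ (a : G) (i m : ℕ), ∃ m', m < m' ∧ ∀ v ∈ B.V m', dist (a + v) a ≤ (1 / 2 : ℝ) ^ i := by
    intro a i m
    have h1 : {v : G | dist (a + v) a < (1 / 2 : ℝ) ^ i} ∈ 𝓝 (0 : G) := by
      apply IsOpen.mem_nhds
      · exact isOpen_lt (by fun_prop) continuous_const
      · simp
    obtain ⟨k, hk⟩ := B.small _ h1
    refine ⟨max k (m + 1), by omega, fun v hv => le_of_lt (hk (B.anti (le_max_left _ _) hv))⟩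
  choose F hF1 hF2 using hsm
  -- state: (a, m)
  let st : ℕ → G × ℕ := fun i => Nat.rec ((0 : G), 0) (fun i x =>
    (x.1 - s (F x.1 i x.2) + s (F (x.1 - s (F x.1 i x.2)) i (F x.1 i x.2)),
      F (x.1 - s (F x.1 i x.2)) i (F x.1 i x.2))) i
  let a : ℕ → G := fun i => (st i).1
  let m : ℕ → ℕ := fun i => (st i).2
  let m' : ℕ → ℕ := fun i => F (a i) i (m i)
  let b : ℕ → G := fun i => a i - s (m' i)
  have hm : ∀ i, m (i + 1) = F (b i) i (m' i) := fun i => rfl
  have ha : ∀ i, a (i + 1) = b i + s (m (i + 1)) := fun i => rfl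
  have h1 : ∀ i, m i < m' i := fun i => hF1 _ _ _
  have h2 : ∀ i, m' i < m (i + 1) := fun i => by rw [hm]; exact hF1 _ _ _
  have hm'mono : StrictMono m' := strictMono_nat_of_lt_succ fun i => (h2 i).trans (h1 (i + 1))
  have hmmono : StrictMono m := strictMono_nat_of_lt_succ fun i => (h1 i).trans (h2 i)
  have haV : ∀ i, a (i + 1) - a i ∈ B.V (m' i) := by
    intro i
    have : a (i + 1) - a i = s (m (i + 1)) - s (m' i) := by rw [ha]; simp only [b]; abel
    rw [this]
    exact hs' _ _ (h2 i).le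
  have hbV : ∀ i, b (i + 1) - b i ∈ B.V (m (i + 1)) := by
    intro i
    have : b (i + 1) - b i = -(s (m' (i + 1)) - s (m (i + 1))) := by
      simp only [b]; rw [ha]; simp only [b]; abel
    rw [this]
    exact (B.V _).neg_mem (hs' _ _ (h1 (i + 1)).le)
  have haV' := B.chain a m' hm'mono.monotone haV
  have hbV' := B.chain b (fun i => m (i + 1))
    (fun i j h => hmmono.monotone (Nat.succ_le_succ h)) hbV
  have cauchy : ∀ c : ℕ → G, (∀ i j, i ≤ j → dist (c j) (c i) ≤ (1 / 2 : ℝ) ^ i) → CauchySeq c := by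
    intro c hc
    refine cauchySeq_of_le_tendsto_0' (fun i => (1 / 2 : ℝ) ^ i) (fun i j h => ?_) ?_
    · rw [dist_comm]; exact hc i j h
    · exact tendsto_pow_atTop_nhds_zero_of_lt_one (by norm_num) (by norm_num)
  have hca : CauchySeq a := cauchy a fun i j h => by
    have := hF2 (a i) i (m i) _ (haV' i j h)
    simpa using this
  have hcb : CauchySeq b := cauchy b fun i j h => by
    have h3 := hbV' i j h
    simp only [hm] at h3
    have := hF2 (b i) i (m' i) _ h3
    simpa using this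
  obtain ⟨A, hA⟩ := cauchySeq_tendsto_of_complete hca
  obtain ⟨C, hC⟩ := cauchySeq_tendsto_of_complete hcb
  refine ⟨A - C, fun k => ?_⟩
  have h4 : Tendsto (fun i => a i - b i - s k) atTop (𝓝 (A - C - s k)) :=
    (hA.sub hC).sub tendsto_const_nhds
  refine (B.closed k).mem_of_tendsto h4 ?_
  filter_upwards [eventually_ge_atTop k] with i hi
  have : a i - b i - s k = s (m' i) - s k := by simp only [b]; abel
  rw [this]
  exact hs' _ _ (hi.trans (hm'mono.id_le i))

theorem exists_subseq (R : ℕ → ℕ → Prop) (h : ∀ j, ∃ m, R j m) (hlt : ∀ j m, R j m → j < m) :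
    ∃ φ : ℕ → ℕ, StrictMono φ ∧ ∀ k, R (φ k) (φ (k + 1)) := by
  choose f hf using h
  let φ : ℕ → ℕ := fun n => Nat.rec 0 (fun _ j => f j) n
  have hφ : ∀ k, φ (k + 1) = f (φ k) := fun k => rfl
  refine ⟨φ, strictMono_nat_of_lt_succ fun k => ?_, fun k => ?_⟩
  · rw [hφ]; exact hlt _ _ (hf _)
  · rw [hφ]; exact hf _

end Pool.Agent.H720Z.Tame
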