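import Pool.Agent.H720Z.Tame.Wild

set_option autoImplicit false
set_option maxHeartbeats 400000

namespace Pool.Agent.H720Z.Tame

open Set Filter Topology MeasureTheory

theorem dvd_of_eq' {p a b : ℤ} (h : p ∣ a) (e : b = a) : p ∣ b := e ▸ h

variable {G : Type} [AddCommGroup G] [TopologicalSpace G]

theorem lc_mem (B : Basis G) {J : Type} (l : J → ℕ) (x : J → G) (hx : ∀ s, x s ∈ B.V (l s))
    (c : J →₀ ℤ) (m : ℕ) (hc : ∀ s, l s < m → c s = 0) :
    Finsupp.linearCombination ℤ x c ∈ B.V m := by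
  rw [Finsupp.linearCombination_apply, Finsupp.sum]
  refine (B.V m).sum_mem fun s hs => (B.V m).zsmul_mem (B.anti ?_ (hx s)) _
  by_contra h
  exact Finsupp.mem_support_iff.mp hs (hc s (by omega))

variable [PolishSpace G] [IsTopologicalAddGroup G]

theorem not_tame_b (B : Basis G) (p : ℕ) (hp : p.Prime) (x : List ℕ → G)
    (hx : ∀ s, x s ∈ B.V s.length)
    (ind : ∀ (c : List ℕ →₀ ℤ) m, Finsupp.linearCombination ℤ x c ∈ B.V m →
      ∀ s : List ℕ, s.length < m → (p : ℤ) ∣ c s) : ¬ IsTame G := by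
  classical
  intro hG
  let σ := (Finsupp.linearCombination ℤ x).toAddMonoidHom
  let P : ℤ → (ℕ → Bool) → ℕ → (List ℕ →₀ ℤ) → Prop := fun a z m c =>
    ((p : ℤ) ∣ c [] - a ∧ ∀ s : List ℕ, s.length + 1 < m → (p : ℤ) ∣ c s - sg s c) ∧
      ∀ s, s ∉ Tr z → (p : ℤ) ∣ c s
  have mP : ∀ a c m, MeasurableSet {z | P a z m c} := by
    intro a c m
    refine (MeasurableSet.const _).inter ?_
    change MeasurableSet {z | ∀ s, s ∉ Tr z → (p : ℤ) ∣ c s}
    rw [setOf_forall]
    refine MeasurableSet.iInter fun s => ?_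
    have : {z | s ∉ Tr z → (p : ℤ) ∣ c s} = {z | s ∈ Tr z} ∪ {z | (p : ℤ) ∣ c s} := by
      ext z
      simp only [mem_setOf_eq, mem_union]
      tauto
    rw [this]
    exact (measurableSet_Tr s).union (MeasurableSet.const _)
  have padd : ∀ a b z m c d, P a z m c → P b z m d → P (a + b) z m (c + d) := by
    rintro a b z m c d ⟨⟨h1, h2⟩, h3⟩ ⟨⟨h4, h5⟩, h6⟩
    refine ⟨⟨?_, fun s hs => ?_⟩, fun s hs => dvd_add (h3 s hs) (h6 s hs)⟩
    · refine dvd_of_eq' (dvd_add h1 h4) ?_
      rw [Finsupp.add_apply]; ring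
    · refine dvd_of_eq' (dvd_add (h2 s hs) (h5 s hs)) ?_
      rw [Finsupp.add_apply, sg_add]; ring
  have pneg : ∀ a z m c, P a z m c → P (-a) z m (-c) := by
    rintro a z m c ⟨⟨h1, h2⟩, h3⟩
    refine ⟨⟨?_, fun s hs => ?_⟩, fun s hs => (dvd_neg).mpr (h3 s hs)⟩
    · refine dvd_of_eq' ((dvd_neg).mpr h1) ?_
      rw [Finsupp.neg_apply]; ring
    · refine dvd_of_eq' ((dvd_neg).mpr (h2 s hs)) ?_
      rw [Finsupp.neg_apply, sg_neg]; ring
  have h1 := wild hG B σ (P 1) (P 0) (mP 1) (mP 0)
    (fun z m => ⟨⟨by simp, fun s _ => by simp [sg]⟩, fun s _ => by simp⟩)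
    (fun z m c d hc hd => by simpa using padd _ _ _ _ _ _ hd hc)
    (fun z m c d hc hd => by
      have := padd _ _ _ _ _ _ hd (pneg _ _ _ _ hc)
      rw [add_neg_cancel, ← sub_eq_add_neg] at this
      exact this)
  apply not_measurableSet_IF
  convert h1 using 1
  ext z
  constructor
  · rintro ⟨β, hβ⟩
    obtain ⟨g, hg⟩ := B.complete (fun k => σ (db β k)) (fun k => by
      rw [← map_sub]
      refine lc_mem B List.length x hx (db β (k + 1) - db β k) k fun s hs => ?_
      rw [Finsupp.sub_apply, db_apply, db_apply, sub_eq_zero]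
      congr 1
      simp only [eq_iff_iff]
      constructor <;> rintro ⟨-, h⟩ <;> exact ⟨by omega, h⟩)
    refine ⟨g, fun m => ⟨db β m, ⟨⟨?_, fun s hs => ?_⟩, fun s hs => ?_⟩, hg m⟩⟩
    · rw [db_apply, if_pos ⟨Nat.zero_le _, rfl⟩]; simp
    · rw [sg_db β m s (by omega)]; simp
    · rw [db_apply, if_neg]
      · simp
      · rintro ⟨-, h⟩
        exact hs (h ▸ hβ _)
  · rintro ⟨g, hg⟩
    choose c hc hc' using hg
    have hst : ∀ (s : List ℕ) m, s.length < m → (p : ℤ) ∣ c m s - c (s.length + 1) s := by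
      intro s m hm
      refine ind (c m - c (s.length + 1)) (s.length + 1) ?_ s (Nat.lt_succ_self _)
      have := (B.V _).sub_mem (hc' (s.length + 1)) (B.anti (Nat.succ_le_of_lt hm) (hc' m))
      rw [map_sub]
      simpa [σ] using this
    refine mem_IF_of_alive id (fun s => ¬ (p : ℤ) ∣ c (s.length + 1) s) z ?_ ?_ ?_
    · intro h
      have h2 := dvd_sub h (hc 1).1.1
      simp only [List.length_nil, zero_add, sub_sub_cancel] at h2
      exact hp.one_lt.ne' (by exact_mod_cast Int.eq_one_of_dvd_one (by positivity) h2)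
    · intro s hs
      by_contra h
      rw [List.map_id] at h
      exact hs ((hc _).2 s h)
    · intro s hs
      by_contra h
      push Not at h
      apply hs
      have h2 := (hc (s.length + 2)).1.2 s (by omega)
      have h3 : (p : ℤ) ∣ sg s (c (s.length + 2)) :=
        finsum_induction (fun n => (p : ℤ) ∣ n) (dvd_zero _) (fun _ _ => dvd_add) (fun i => h i)
      have h4 := hst s (s.length + 2) (by omega)
      refine dvd_of_eq' (dvd_sub (dvd_add h2 h3) h4) ?_
      ring

/-- Alternating moduli. -/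
def rr (n : ℕ) : ℤ := if n % 2 = 0 then 2 else 3

theorem rr_ge (n : ℕ) : 2 ≤ rr n := by unfold rr; split_ifs <;> norm_num

theorem rr_cop (n : ℕ) : IsCoprime (rr n) (rr (n + 1)) := by
  unfold rr
  rcases Nat.mod_two_eq_zero_or_one n with h | h
  · rw [if_pos h, if_neg (by omega)]; exact ⟨-1, 1, by norm_num⟩
  · rw [if_neg (by omega), if_pos (by omega)]; exact ⟨1, -1, by norm_num⟩

theorem exists_uu (n j b : ℕ) : ∃ u : ℤ, rr n ^ j ∣ 1 - u * rr (n + 1) ^ b := by
  obtain ⟨v, u, h⟩ := (rr_cop n).pow (m := j) (n := b)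
  exact ⟨u, v, by linarith⟩

/-- A solution of the congruences along a branch. -/
noncomputable def cc (β : ℕ → ℕ) : List (ℕ × ℕ) → ℤ
  | [] => rr 0 ^ β 0
  | a :: s => if a.2 = β s.length then
      (exists_uu s.length a.1 (β (s.length + 1))).choose * rr (s.length + 1) ^ β (s.length + 1) *
        cc β s else 0

theorem cc_dvd (β : ℕ → ℕ) (s : List (ℕ × ℕ)) : rr s.length ^ β s.length ∣ cc β s := by
  cases s with
  | nil => exact dvd_rfl
  | cons a s =>
    rw [cc]
    split_ifs
    · exact Dvd.dvd.mul_right (Dvd.intro_left _ rfl) _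
    · exact dvd_zero _

theorem cc_pre (β : ℕ → ℕ) (s : List (ℕ × ℕ)) (h : cc β s ≠ 0) :
    s.map Prod.snd = pre β s.length := by
  induction s with
  | nil => rfl
  | cons a s ih =>
    rw [cc] at h
    split_ifs at h with h1
    · rw [List.map_cons, List.length_cons, pre, h1, ih (right_ne_zero_of_mul h)]
    · exact absurd rfl h

theorem cc_cong (β : ℕ → ℕ) (s : List (ℕ × ℕ)) (j : ℕ) :
    rr s.length ^ j ∣ cc β s - ∑ i ∈ Finset.range (j + 1), cc β ((j, i) :: s) := by
  simp only [cc, Finset.sum_ite_eq', Finset.mem_range]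
  split_ifs with h
  · have := (exists_uu s.length j (β (s.length + 1))).choose_spec
    refine dvd_of_eq' (Dvd.dvd.mul_right this (cc β s)) ?_
    ring
  · rw [sub_zero]
    exact (pow_dvd_pow _ (by omega)).trans (cc_dvd β s)

theorem not_tame_a (B : Basis G) (y : ℕ → G) (hy : ∀ k, y k ∈ B.V k)
    (hy' : ∀ k (N : ℕ), N • y k ∈ B.V (k + 1) → N = 0) : ¬ IsTame G := by
  classical
  intro hG
  have ind : ∀ (c : ℕ →₀ ℤ) m, Finsupp.linearCombination ℤ y c ∈ B.V m → ∀ k, k < m → c k = 0 := by
    intro c m hc k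
    induction k using Nat.strong_induction_on with
    | _ k ih =>
      intro hk
      have h1 : Finsupp.linearCombination ℤ y (c - Finsupp.single k (c k)) ∈ B.V (k + 1) := by
        refine lc_mem B id y hy _ _ fun s hs => ?_
        rcases Nat.lt_succ_iff_lt_or_eq.mp hs with h | h
        · have h' : s < k := h
          rw [Finsupp.sub_apply, ih s h' (by omega), Finsupp.single_eq_of_ne (by omega), sub_zero]
        · have h' : s = k := h
          rw [h']; simp
      have h2 := (B.V _).sub_mem (B.anti (Nat.succ_le_of_lt hk) hc) h1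
      rw [map_sub, Finsupp.linearCombination_single, sub_sub_cancel] at h2
      have h3 : (c k).natAbs • y k ∈ B.V (k + 1) := by
        rw [← natCast_zsmul]
        rcases Int.natAbs_eq (c k) with h | h
        · rw [← h]; exact h2
        · have : ((c k).natAbs : ℤ) = - c k := by omega
          rw [this, neg_smul]; exact (B.V _).neg_mem h2
      exact Int.natAbs_eq_zero.mp (hy' k _ h3)
  let σ := (Finsupp.linearCombination ℤ y).toAddMonoidHom
  let e : List (ℕ × ℕ) ≃ ℕ := Denumerable.eqv _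
  let P : ℤ → (ℕ → Bool) → ℕ → (ℕ →₀ ℤ) → Prop := fun a z m c =>
    ((e [] < m → c (e []) = a) ∧ ∀ (s : List (ℕ × ℕ)) (j : ℕ), e s < m →
      (∀ i ∈ Finset.range (j + 1), e ((j, i) :: s) < m) →
      rr s.length ^ j ∣ c (e s) - ∑ i ∈ Finset.range (j + 1), c (e ((j, i) :: s))) ∧
      ∀ s : List (ℕ × ℕ), s.map Prod.snd ∉ Tr z → c (e s) = 0
  have mP : ∀ a c m, MeasurableSet {z | P a z m c} := by
    intro a c m
    refine (MeasurableSet.const _).inter ?_
    change MeasurableSet {z | ∀ s : List (ℕ × ℕ), s.map Prod.snd ∉ Tr z → c (e s) = 0}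
    rw [setOf_forall]
    refine MeasurableSet.iInter fun s => ?_
    have : {z | s.map Prod.snd ∉ Tr z → c (e s) = 0} =
        {z | s.map Prod.snd ∈ Tr z} ∪ {z | c (e s) = 0} := by
      ext z
      simp only [mem_setOf_eq, mem_union]
      tauto
    rw [this]
    exact (measurableSet_Tr _).union (MeasurableSet.const _)
  have padd : ∀ a b z m c d, P a z m c → P b z m d → P (a + b) z m (c + d) := by
    rintro a b z m c d ⟨⟨h1, h2⟩, h3⟩ ⟨⟨h4, h5⟩, h6⟩
    refine ⟨⟨fun h => ?_, fun s j hs hj => ?_⟩, fun s hs => ?_⟩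
    · rw [Finsupp.add_apply, h1 h, h4 h]
    · refine dvd_of_eq' (dvd_add (h2 s j hs hj) (h5 s j hs hj)) ?_
      simp only [Finsupp.add_apply, Finset.sum_add_distrib]; ring
    · rw [Finsupp.add_apply, h3 s hs, h6 s hs, add_zero]
  have pneg : ∀ a z m c, P a z m c → P (-a) z m (-c) := by
    rintro a z m c ⟨⟨h1, h2⟩, h3⟩
    refine ⟨⟨fun h => ?_, fun s j hs hj => ?_⟩, fun s hs => ?_⟩
    · rw [Finsupp.neg_apply, h1 h]
    · refine dvd_of_eq' ((dvd_neg).mpr (h2 s j hs hj)) ?_
      simp only [Finsupp.neg_apply, Finset.sum_neg_distrib]; ring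
    · rw [Finsupp.neg_apply, h3 s hs, neg_zero]
  have h1 := fun a => wild hG B σ (P a) (P 0) (mP a) (mP 0)
    (fun z m => ⟨⟨by simp, fun s _ => by simp⟩, fun s _ => by simp⟩)
    (fun z m c d hc hd => by simpa using padd _ _ _ _ _ _ hd hc)
    (fun z m c d hc hd => by
      have := padd _ _ _ _ _ _ hd (pneg _ _ _ _ hc)
      rw [add_neg_cancel, ← sub_eq_add_neg] at this
      exact this)
  apply not_measurableSet_IF
  have h2 := MeasurableSet.iUnion fun a : ℤ => MeasurableSet.iUnion fun _ : a ≠ 0 => h1 a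
  convert h2 using 1
  ext z
  simp only [mem_iUnion, mem_setOf_eq, exists_prop]
  constructor
  · rintro ⟨β, hβ⟩
    let c : ℕ → (ℕ →₀ ℤ) := fun m => Finsupp.onFinset (Finset.range m)
      (fun k => if k < m then cc β (e.symm k) else 0) (fun k hk => by
        by_contra h
        exact hk (if_neg (by simpa using h)))
    have hc : ∀ m k, c m k = if k < m then cc β (e.symm k) else 0 := fun m k => rfl
    have hc' : ∀ m s, e s < m → c m (e s) = cc β s := fun m s h => by
      rw [hc, if_pos h, Equiv.symm_apply_apply]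
    obtain ⟨g, hg⟩ := B.complete (fun k => σ (c k)) (fun k => by
      rw [← map_sub]
      refine lc_mem B id y hy (c (k + 1) - c k) k fun s hs => ?_
      have hs' : s < k := hs
      rw [Finsupp.sub_apply, hc, hc, if_pos hs', if_pos (by omega), sub_self])
    refine ⟨cc β [], ?_, g, fun m => ⟨c m, ⟨⟨hc' m [], fun s j hs hj => ?_⟩, fun s hs => ?_⟩, hg m⟩⟩
    · have := rr_ge 0
      rw [cc]; positivity
    · rw [hc' m s hs, Finset.sum_congr rfl fun i hi => hc' m _ (hj i hi)]
      exact cc_cong β s j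
    · rw [hc, Equiv.symm_apply_apply]
      split_ifs
      · by_contra h
        exact hs (cc_pre β s h ▸ hβ _)
      · rfl
  · rintro ⟨a, ha, g, hg⟩
    choose c hc hc' using hg
    have hst : ∀ k m, k < m → c m k = c (k + 1) k := by
      intro k m hm
      rw [← sub_eq_zero]
      refine ind (c m - c (k + 1)) (k + 1) ?_ k (Nat.lt_succ_self _)
      have := (B.V _).sub_mem (hc' (k + 1)) (B.anti (Nat.succ_le_of_lt hm) (hc' m))
      rw [map_sub]
      simpa [σ] using this
    refine mem_IF_of_alive Prod.snd (fun s => c (e s + 1) (e s) ≠ 0) z ?_ ?_ ?_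
    · rw [(hc _).1.1 (Nat.lt_succ_self _)]; exact ha
    · intro s hs
      by_contra h
      exact hs ((hc _).2 s h)
    · intro s hs
      by_contra h
      push Not at h
      set j := (c (e s + 1) (e s)).natAbs with hj
      let m := (Finset.range (j + 1)).sup (fun i => e ((j, i) :: s)) + e s + 1
      have hm : ∀ i ∈ Finset.range (j + 1), e ((j, i) :: s) < m := fun i hi => by
        have := Finset.le_sup (f := fun i => e ((j, i) :: s)) hi
        simp only [m]
        omega
      have hm' : e s < m := by simp only [m]; omega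
      have h2 := (hc m).1.2 s j hm' hm
      rw [Finset.sum_eq_zero (fun i hi => by rw [hst _ m (hm i hi)]; exact h _), sub_zero,
        hst _ m hm'] at h2
      have h3 := Int.natAbs_dvd_natAbs.mpr h2
      rw [← hj, Int.natAbs_pow] at h3
      have h4 := Nat.le_of_dvd (Int.natAbs_pos.mpr hs) h3
      have h5 : 2 ≤ (rr s.length).natAbs := by have := rr_ge s.length; omega
      have h6 := Nat.lt_pow_self (n := j) h5
      omega

end Pool.Agent.H720Z.Tame
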