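import Pool.Agent.H720Z.Tame.Alg

set_option autoImplicit false
set_option maxHeartbeats 400000

namespace Pool.Agent.H720Z.Tame

open Set Filter Topology MeasureTheory

section
variable {G : Type} [AddCommGroup G]

/-- Affine subsets. -/
def Aff (T : Set G) : Prop := ∀ a ∈ T, ∀ b ∈ T, ∀ c ∈ T, a - b + c ∈ T

/-- Saturated subsets. -/
def Sat (V : AddSubgroup G) (T : Set G) : Prop := ∀ a ∈ T, ∀ b, b - a ∈ V → b ∈ T

/-- The `p`-socle of `U / V` is finite. -/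
def SocFin (U V : AddSubgroup G) (p : ℕ) : Prop :=
  {q : G ⧸ V | q ∈ U.map (QuotientAddGroup.mk' V) ∧ p • q = 0}.Finite

/-- The `p`-component of a coset. -/
def Tp (V : AddSubgroup G) (p : ℕ) (T : Set G) : Set G :=
  {h | h ∈ Pp V p ∧ ∃ t ∈ T, t - h ∈ Cp V p}

theorem Tp_aff {V : AddSubgroup G} {p : ℕ} {T : Set G} (hT : Aff T) : Aff (Tp V p T) := by
  rintro a ⟨ha, t, ht, hta⟩ b ⟨hb, u, hu, hub⟩ c ⟨hc, w, hw, hwc⟩
  refine ⟨(Pp V p).add_mem ((Pp V p).sub_mem ha hb) hc, t - u + w, hT t ht u hu w hw, ?_⟩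
  have : t - u + w - (a - b + c) = (t - a) - (u - b) + (w - c) := by abel
  rw [this]
  exact (Cp V p).add_mem ((Cp V p).sub_mem hta hub) hwc

theorem Tp_sat {V : AddSubgroup G} {p : ℕ} {T : Set G} : Sat V (Tp V p T) := by
  rintro a ⟨ha, t, ht, hta⟩ b hb
  refine ⟨?_, t, ht, ?_⟩
  · simpa using (Pp V p).add_mem (le_Pp V p hb) ha
  · have : t - b = (t - a) - (b - a) := by abel
    rw [this]
    exact (Cp V p).sub_mem hta (le_Cp V p hb)

theorem Tp_mono {V W : AddSubgroup G} (h : V ≤ W) {p : ℕ} {T U : Set G} (hT : T ⊆ U) :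
    Tp V p T ⊆ Tp W p U := by
  rintro a ⟨ha, t, ht, hta⟩
  exact ⟨Pp_mono h p ha, t, hT ht, Cp_mono h p hta⟩

/-- The direction of an affine set. -/
def dirSub (T : Set G) (hT : Aff T) (t : G) (ht : t ∈ T) : AddSubgroup G where
  carrier := {x | t + x ∈ T}
  zero_mem' := by simpa using ht
  add_mem' := by
    intro x y hx hy
    have := hT _ hx _ ht _ hy
    have e : t + x - t + (t + y) = t + (x + y) := by abel
    rwa [e] at this
  neg_mem' := by
    intro x hx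
    have := hT _ ht _ hx _ ht
    have e : t - (t + x) + t = t + -x := by abel
    rwa [e] at this

theorem ml_step (V : ℕ → AddSubgroup G) (hV : Antitone V) (p : ℕ) (A : ℕ → Set G)
    (anti : Antitone A) (aff : ∀ n, Aff (A n)) (hP : ∀ n, ∀ a ∈ A n, a ∈ Pp (V n) p) (m : ℕ)
    (hs : SocFin (V m) (V (m + 1)) p) (h : G) (hh : ∀ n, ∃ g ∈ A n, g - h ∈ V m) :
    ∃ h', h' - h ∈ V m ∧ ∀ n, ∃ g ∈ A n, g - h' ∈ V (m + 1) := by
  let π := QuotientAddGroup.mk' (V (m + 1))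
  let A' : ℕ → Set G := fun n => {g | g ∈ A (n + (m + 1)) ∧ g - h ∈ V m}
  have aff' : ∀ n, Aff (A' n) := by
    rintro n a ⟨ha, ha'⟩ b ⟨hb, hb'⟩ c ⟨hc, hc'⟩
    refine ⟨aff _ a ha b hb c hc, ?_⟩
    have : a - b + c - h = (a - h) - (b - h) + (c - h) := by abel
    rw [this]
    exact (V m).add_mem ((V m).sub_mem ha' hb') hc'
  have anti' : Antitone A' := fun n n' hn g hg => ⟨anti (by omega) hg.1, hg.2⟩
  have ne : ∀ n, ∃ g, g ∈ A' n := fun n => hh _
  choose t ht using ne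
  have hdir : ∀ n x, x ∈ dirSub (A' n) (aff' n) (t n) (ht n) ↔ ∃ a ∈ A' n, ∃ b ∈ A' n, x = a - b := by
    intro n x
    constructor
    · intro hx
      exact ⟨_, hx, _, ht n, by abel⟩
    · rintro ⟨a, ha, b, hb, rfl⟩
      have := aff' n a ha b hb _ (ht n)
      change t n + (a - b) ∈ A' n
      rwa [add_comm]
  let S : ℕ → AddSubgroup (G ⧸ V (m + 1)) := fun n => (dirSub (A' n) (aff' n) (t n) (ht n)).map π
  have hS : Antitone S := by
    intro n n' hn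
    apply AddSubgroup.map_mono
    intro x hx
    obtain ⟨a, ha, b, hb, rfl⟩ := (hdir _ _).mp hx
    exact (hdir _ _).mpr ⟨a, anti' hn ha, b, anti' hn hb, rfl⟩
  obtain ⟨N, hN⟩ := dcc p S hS (by
    rintro q ⟨x, hx, rfl⟩
    obtain ⟨a, ha, b, hb, rfl⟩ := (hdir _ _).mp hx
    obtain ⟨e, he⟩ := (Pp _ p).sub_mem (hP _ a ha.1) (hP _ b hb.1)
    refine ⟨e, ?_⟩
    rw [← map_nsmul]
    exact (QuotientAddGroup.eq_zero_iff _).mpr (hV (by omega) he)) (by
    refine hs.subset ?_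
    rintro q ⟨⟨x, hx, rfl⟩, hq⟩
    refine ⟨⟨x, ?_, rfl⟩, hq⟩
    obtain ⟨a, ha, b, hb, rfl⟩ := (hdir _ _).mp hx
    have : a - b = (a - h) - (b - h) := by abel
    rw [this]
    exact (V m).sub_mem ha.2 hb.2)
  refine ⟨t N, (ht N).2, fun n => ?_⟩
  have h1 : π (t N - t (max n N)) ∈ S N :=
    ⟨_, (hdir _ _).mpr ⟨_, ht N, _, anti' (le_max_right n N) (ht _), rfl⟩, rfl⟩
  obtain ⟨x, hx, hx'⟩ := hN _ (le_max_right n N) h1
  have hx2 : t (max n N) + x ∈ A' (max n N) := hx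
  refine ⟨_, anti (by omega) hx2.1, ?_⟩
  have h3 := QuotientAddGroup.eq.mp hx'.symm
  have e : -(t N - t (max n N)) + x = t (max n N) + x - t N := by abel
  rwa [e] at h3

end

variable {G : Type} [AddCommGroup G] [TopologicalSpace G] [PolishSpace G] [IsTopologicalAddGroup G]

theorem ml (B : Basis G) (p : ℕ) (A : ℕ → Set G)
    (anti : Antitone A) (aff : ∀ n, Aff (A n)) (sat : ∀ n, Sat (B.V n) (A n))
    (hP : ∀ n, ∀ a ∈ A n, a ∈ Pp (B.V n) p) (m : ℕ)
    (hs : ∀ k, m ≤ k → SocFin (B.V k) (B.V (k + 1)) p) (h : G)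
    (hh : ∀ n, ∃ g ∈ A n, g - h ∈ B.V m) :
    ∃ g, g - h ∈ B.V m ∧ ∀ n, g ∈ A n := by
  have step : ∀ k (x : {x : G // ∀ n, ∃ g ∈ A n, g - x ∈ B.V (m + k)}),
      ∃ y : {x : G // ∀ n, ∃ g ∈ A n, g - x ∈ B.V (m + (k + 1))}, y.1 - x.1 ∈ B.V (m + k) := by
    intro k x
    obtain ⟨y, hy1, hy2⟩ := ml_step B.V B.anti p A anti aff hP (m + k) (hs _ (by omega)) x.1 x.2
    exact ⟨⟨y, hy2⟩, hy1⟩
  choose f hf using step
  let s : (k : ℕ) → {x : G // ∀ n, ∃ g ∈ A n, g - x ∈ B.V (m + k)} :=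
    fun k => Nat.rec ⟨h, hh⟩ (fun k x => f k x) k
  obtain ⟨g, hg⟩ := (B.sub (fun k => m + k) (fun a b hab => by simpa using hab)).complete
    (fun k => (s k).1) (fun k => hf k (s k))
  refine ⟨g, hg 0, fun n => ?_⟩
  obtain ⟨a, ha, ha'⟩ := (s n).2 n
  refine sat n a ha g (B.anti (Nat.le_add_left n m) ?_)
  have : g - a = (g - (s n).1) - (a - (s n).1) := by abel
  rw [this]
  exact (B.V _).sub_mem (hg n) ha'

theorem exists_pbranch (B : Basis G) (p : ℕ) (hp : p.Prime) (g : G)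
    (hg : ∀ m, ∃ N : ℕ, N ≠ 0 ∧ N • g ∈ B.V m) :
    ∃ h, ∀ m, h ∈ Pp (B.V m) p ∧ g - h ∈ Cp (B.V m) p := by
  have h1 : ∀ m, ∃ h, h ∈ Pp (B.V m) p ∧ g - h ∈ Cp (B.V m) p := fun m => by
    obtain ⟨N, hN, hNg⟩ := hg m
    exact exists_comp hp hN hNg
  choose s hs1 hs2 using h1
  obtain ⟨h, hh⟩ := B.complete s (fun k => by
    have hle : B.V (k + 1) ≤ B.V k := B.anti (Nat.le_succ k)
    apply mem_of_Cp_Pp (p := p)
    · have : s (k + 1) - s k = (g - s k) - (g - s (k + 1)) := by abel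
      rw [this]
      exact (Cp _ p).sub_mem (hs2 k) (Cp_mono hle p (hs2 _))
    · exact (Pp _ p).sub_mem (Pp_mono hle p (hs1 _)) (hs1 k))
  refine ⟨h, fun m => ⟨?_, ?_⟩⟩
  · simpa using (Pp _ p).add_mem (le_Pp _ p (hh m)) (hs1 m)
  · have : g - h = (g - s m) - (h - s m) := by abel
    rw [this]
    exact (Cp _ p).sub_mem (hs2 m) (le_Cp _ p (hh m))

/-- `h` extends, from level `m`, to a branch of the `p`-component. -/
def Ext (B : Basis G) (p : ℕ) (T : ℕ → Set G) (h : G) (m : ℕ) : Prop :=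
  ∃ g, g - h ∈ B.V m ∧ ∀ n, g ∈ Tp (B.V n) p (T n)

theorem branch_iff (B : Basis G) (tor : ∀ x ∈ B.V 0, ∀ m, ∃ N : ℕ, N ≠ 0 ∧ N • x ∈ B.V m)
    (T : ℕ → Set G) (aff : ∀ n, Aff (T n)) (sat : ∀ n, Sat (B.V n) (T n))
    (h0 : ∀ n, ∀ t ∈ T n, t ∈ B.V 0) :
    (∃ g, ∀ m, g ∈ T m) ↔ (∀ m, ∃ t, t ∈ T m) ∧ (∀ p : ℕ, p.Prime → ∃ h, Ext B p T h 0) ∧
      ∀ m, ∃ P, ∀ p : ℕ, p.Prime → P ≤ p → Ext B p T 0 m := by
  classical
  constructor
  · rintro ⟨g, hg⟩
    have hg0 := tor g (h0 0 g (hg 0))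
    refine ⟨fun m => ⟨g, hg m⟩, fun p hp => ?_, fun m => ?_⟩
    · obtain ⟨h, hh⟩ := exists_pbranch B p hp g hg0
      exact ⟨h, h, by simp, fun n => ⟨(hh n).1, g, hg n, (hh n).2⟩⟩
    · obtain ⟨N, hN, hNg⟩ := hg0 m
      refine ⟨N + 1, fun p hp hNp => ?_⟩
      obtain ⟨h, hh⟩ := exists_pbranch B p hp g hg0
      refine ⟨h, ?_, fun n => ⟨(hh n).1, g, hg n, (hh n).2⟩⟩
      rw [sub_zero]
      apply mem_of_Cp_Pp (p := p) _ (hh m).1
      have h1 : g ∈ Cp (B.V m) p := ⟨N, ((Nat.Prime.coprime_iff_not_dvd hp).mpr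
        (Nat.not_dvd_of_pos_of_lt (Nat.pos_of_ne_zero hN) hNp)).symm, hNg⟩
      simpa using (Cp _ p).sub_mem h1 (hh m).2
  · rintro ⟨h1, h2, h3⟩
    have h4 : ∀ p : ℕ, ∃ b : G, (p.Prime → ∀ n, b ∈ Tp (B.V n) p (T n)) ∧ (¬ p.Prime → b = 0) ∧
        ∀ m, m ≤ p → Ext B p T 0 m → b ∈ B.V m := by
      intro p
      by_cases hp : p.Prime
      · by_cases hE : Ext B p T 0 (Nat.findGreatest (fun m => Ext B p T 0 m) p)
        · obtain ⟨b, hb1, hb2⟩ := hE
          refine ⟨b, fun _ => hb2, fun h => absurd hp h, fun m hm hE' => ?_⟩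
          rw [sub_zero] at hb1
          exact B.anti (Nat.le_findGreatest hm hE') hb1
        · obtain ⟨h, b, -, hb2⟩ := h2 p hp
          refine ⟨b, fun _ => hb2, fun h => absurd hp h, fun m hm hE' => ?_⟩
          exact absurd (Nat.findGreatest_spec (P := fun m => Ext B p T 0 m) hm hE') hE
      · exact ⟨0, fun h => absurd h hp, fun _ => rfl, fun m _ _ => (B.V m).zero_mem⟩
    choose b hb1 hb2 hb3 using h4
    have h5 : ∀ m, ∃ P, ∀ p, P ≤ p → b p ∈ B.V m := by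
      intro m
      obtain ⟨P, hP⟩ := h3 m
      refine ⟨max P m, fun p hp => ?_⟩
      by_cases hpp : p.Prime
      · exact hb3 p m (by omega) (hP p hpp (by omega))
      · rw [hb2 p hpp]; exact (B.V m).zero_mem
    choose P hP using h5
    have h6 : ∀ m K, P m ≤ K → ∑ q ∈ Finset.range K, b q - ∑ q ∈ Finset.range (P m), b q ∈ B.V m := by
      intro m K hK
      rw [← Finset.sum_Ico_eq_sub _ hK]
      exact (B.V m).sum_mem fun q hq => hP m q (Finset.mem_Ico.mp hq).1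
    let Q : ℕ → ℕ := fun m => (Finset.range (m + 1)).sup P
    have hQ : ∀ k m, k ≤ m → P k ≤ Q m := fun k m h =>
      Finset.le_sup (f := P) (Finset.mem_range.mpr (Nat.lt_succ_of_le h))
    obtain ⟨g, hg⟩ := B.complete (fun m => ∑ q ∈ Finset.range (Q m), b q) (fun m => by
      have := (B.V m).sub_mem (h6 m _ (hQ m (m + 1) (Nat.le_succ m))) (h6 m _ (hQ m m le_rfl))
      simpa using this)
    refine ⟨g, fun m => sat m _ ?_ g (hg m)⟩
    obtain ⟨t, ht⟩ := h1 m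
    set s := ∑ q ∈ Finset.range (Q m), b q with hs
    have h7 : s - t ∈ dirSub (T m) (aff m) t ht := by
      apply mem_of_coprime
      intro p hp
      obtain ⟨hp1, t', ht', hp2⟩ := hb1 p hp m
      have h8 : ∀ q, q ≠ p → b q ∈ Cp (B.V m) p := by
        intro q hq
        by_cases hqq : q.Prime
        · exact Pp_le_Cp ((Nat.coprime_primes hqq hp).mpr hq) (hb1 q hqq m).1
        · rw [hb2 q hqq]; exact (Cp _ p).zero_mem
      have h9 : s - b p ∈ Cp (B.V m) p := by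
        by_cases hpQ : p ∈ Finset.range (Q m)
        · rw [hs, ← Finset.sum_erase_eq_sub hpQ]
          exact (Cp _ p).sum_mem fun q hq => h8 q (Finset.ne_of_mem_erase hq)
        · refine (Cp _ p).sub_mem ((Cp _ p).sum_mem fun q hq => h8 q ?_) (le_Cp _ p (hP m p ?_))
          · rintro rfl; exact hpQ hq
          · have := hQ m m le_rfl
            simp only [Finset.mem_range, not_lt] at hpQ
            omega
      have h10 : s - t' ∈ Cp (B.V m) p := by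
        have : s - t' = (s - b p) - (t' - b p) := by abel
        rw [this]
        exact (Cp _ p).sub_mem h9 hp2
      obtain ⟨N, hN, hNs⟩ := h10
      refine ⟨N, hN, ?_⟩
      have h11 : t' - t ∈ dirSub (T m) (aff m) t ht := by
        change t + (t' - t) ∈ T m
        simpa using ht'
      have h12 : t + N • (t' - t) ∈ T m := (dirSub (T m) (aff m) t ht).nsmul_mem h11 N
      refine sat m _ h12 _ ?_
      have : t + N • (s - t) - (t + N • (t' - t)) = N • (s - t') := by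
        simp only [smul_sub]; abel
      rw [this]
      exact hNs
    have h8 : t + (s - t) ∈ T m := h7
    simpa using h8

theorem meas_branch0 (B : Basis G) (tor : ∀ x ∈ B.V 0, ∀ m, ∃ N : ℕ, N ≠ 0 ∧ N • x ∈ B.V m)
    (soc : ∀ p : ℕ, p.Prime → ∃ j, ∀ m, j ≤ m → SocFin (B.V m) (B.V (m + 1)) p)
    {Z : Type} [MeasurableSpace Z] (T : Z → ℕ → Set G) (meas : ∀ g n, MeasurableSet {z | g ∈ T z n})
    (anti : ∀ z, Antitone (T z)) (aff : ∀ z n, Aff (T z n)) (sat : ∀ z n, Sat (B.V n) (T z n))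
    (h0 : ∀ z n, ∀ t ∈ T z n, t ∈ B.V 0) :
    MeasurableSet {z | ∃ g, ∀ m, g ∈ T z m} := by
  have mTp : ∀ p g n, MeasurableSet {z | g ∈ Tp (B.V n) p (T z n)} := by
    intro p g n
    refine (MeasurableSet.const _).inter ?_
    refine measurableSet_exists_sat (B.V n) (B.isOpen n)
      (fun t z => t ∈ T z n ∧ t - g ∈ Cp (B.V n) p) (fun t => (meas t n).inter
        (MeasurableSet.const _)) ?_
    rintro t t' z htt ⟨h1, h2⟩
    refine ⟨sat z n t h1 t' htt, ?_⟩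
    simpa using (Cp _ p).add_mem (le_Cp _ p htt) h2
  have mExt : ∀ p : ℕ, p.Prime → ∀ h m, MeasurableSet {z | Ext B p (T z) h m} := by
    intro p hp h m
    obtain ⟨j, hj⟩ := soc p hp
    have e : {z | Ext B p (T z) h m} = {z | ∃ h', h' - h ∈ B.V m ∧
        ∀ n, ∃ g, g ∈ Tp (B.V n) p (T z n) ∧ g - h' ∈ B.V (max m j)} := by
      ext z
      constructor
      · rintro ⟨g, hg1, hg2⟩
        exact ⟨g, hg1, fun n => ⟨g, hg2 n, by simp⟩⟩
      · rintro ⟨h', hh1, hh2⟩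
        obtain ⟨g, hg1, hg2⟩ := ml B p (fun n => Tp (B.V n) p (T z n))
          (fun a b hab => Tp_mono (B.anti hab) (anti z hab)) (fun n => Tp_aff (aff z n))
          (fun n => Tp_sat) (fun n a ha => ha.1) (max m j) (fun k hk => hj k (by omega)) h' hh2
        refine ⟨g, ?_, hg2⟩
        simpa using (B.V m).add_mem (B.anti (le_max_left m j) hg1) hh1
    rw [e]
    refine measurableSet_exists_sat (B.V (max m j)) (B.isOpen _) _ (fun h' => ?_) ?_
    · refine (MeasurableSet.const _).inter ?_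
      change MeasurableSet {z | ∀ n, ∃ g, g ∈ Tp (B.V n) p (T z n) ∧ g - h' ∈ B.V (max m j)}
      rw [setOf_forall]
      refine MeasurableSet.iInter fun n => ?_
      refine measurableSet_exists_sat (B.V (max n (max m j))) (B.isOpen _) _
        (fun g => (mTp p g n).inter (MeasurableSet.const _)) ?_
      rintro g g' z hgg ⟨h1, h2⟩
      refine ⟨Tp_sat g h1 g' (B.anti (le_max_left _ _) hgg), ?_⟩
      simpa using (B.V _).add_mem (B.anti (le_max_right _ _) hgg) h2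
    · rintro g g' z hgg ⟨h1, h2⟩
      refine ⟨?_, fun n => ?_⟩
      · simpa using (B.V _).add_mem (B.anti (le_max_left _ _) hgg) h1
      · obtain ⟨a, ha1, ha2⟩ := h2 n
        refine ⟨a, ha1, ?_⟩
        simpa using (B.V _).sub_mem ha2 hgg
  have e : {z | ∃ g, ∀ m, g ∈ T z m} = (⋂ m, {z | ∃ t, t ∈ T z m}) ∩
      ((⋂ p : ℕ, ⋂ _ : p.Prime, {z | ∃ h, Ext B p (T z) h 0}) ∩
      ⋂ m, ⋃ P, ⋂ p : ℕ, ⋂ _ : p.Prime, ⋂ _ : P ≤ p, {z | Ext B p (T z) 0 m}) := by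
    ext z
    simp only [mem_setOf_eq, mem_inter_iff, mem_iInter, mem_iUnion]
    exact branch_iff B tor (T z) (aff z) (sat z) (h0 z)
  rw [e]
  refine (MeasurableSet.iInter fun m => ?_).inter ((MeasurableSet.iInter fun p =>
    MeasurableSet.iInter fun hp => ?_).inter (MeasurableSet.iInter fun m =>
    MeasurableSet.iUnion fun P => MeasurableSet.iInter fun p => MeasurableSet.iInter fun hp =>
    MeasurableSet.iInter fun _ => mExt p hp 0 m))
  · exact measurableSet_exists_sat (B.V m) (B.isOpen m) _ (fun g => meas g m)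
      (fun g g' z h1 h2 => sat z m g h2 g' h1)
  · refine measurableSet_exists_sat (B.V 0) (B.isOpen 0) _ (fun h => mExt p hp h 0) ?_
    rintro h h' z h1 ⟨g, hg1, hg2⟩
    refine ⟨g, ?_, hg2⟩
    simpa using (B.V _).sub_mem hg1 h1

theorem meas_branch (B : Basis G) (tor : ∀ x ∈ B.V 0, ∀ m, ∃ N : ℕ, N ≠ 0 ∧ N • x ∈ B.V m)
    (soc : ∀ p : ℕ, p.Prime → ∃ j, ∀ m, j ≤ m → SocFin (B.V m) (B.V (m + 1)) p)
    {Z : Type} [MeasurableSpace Z] (T : Z → ℕ → Set G) (meas : ∀ g n, MeasurableSet {z | g ∈ T z n})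
    (anti : ∀ z, Antitone (T z)) (aff : ∀ z n, Aff (T z n)) (sat : ∀ z n, Sat (B.V n) (T z n)) :
    MeasurableSet {z | ∃ g, ∀ m, g ∈ T z m} := by
  have e : {z | ∃ g, ∀ m, g ∈ T z m} =
      {z | ∃ r, ∃ g, ∀ m, g ∈ {g | g ∈ B.V 0 ∧ r + g ∈ T z m}} := by
    ext z
    constructor
    · rintro ⟨g, hg⟩
      exact ⟨g, 0, fun m => ⟨(B.V 0).zero_mem, by simpa using hg m⟩⟩
    · rintro ⟨r, g, hg⟩
      exact ⟨r + g, fun m => (hg m).2⟩
  rw [e]
  refine measurableSet_exists_sat (B.V 0) (B.isOpen 0) _ (fun r => ?_) ?_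
  · refine meas_branch0 B tor soc (fun z m => {g | g ∈ B.V 0 ∧ r + g ∈ T z m})
      (fun g n => (MeasurableSet.const _).inter (meas _ n))
      (fun z a b hab g hg => ⟨hg.1, anti z hab hg.2⟩) ?_ ?_ (fun z n t ht => ht.1)
    · rintro z n a ⟨ha, ha'⟩ b ⟨hb, hb'⟩ c ⟨hc, hc'⟩
      refine ⟨(B.V 0).add_mem ((B.V 0).sub_mem ha hb) hc, ?_⟩
      have := aff z n _ ha' _ hb' _ hc'
      have e : r + a - (r + b) + (r + c) = r + (a - b + c) := by abel
      rwa [e] at this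
    · rintro z n a ⟨ha, ha'⟩ b hb
      refine ⟨?_, sat z n _ ha' _ (by simpa using hb)⟩
      simpa using (B.V 0).add_mem (B.anti (Nat.zero_le n) hb) ha
  · rintro r r' z hr ⟨g, hg⟩
    refine ⟨g - (r' - r), fun m => ⟨(B.V 0).sub_mem (hg m).1 hr, ?_⟩⟩
    have : r' + (g - (r' - r)) = r + g := by abel
    rw [this]
    exact (hg m).2

end Pool.Agent.H720Z.Tame
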