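import Pool.Agent.H720Z.Tame.Good

set_option autoImplicit false
set_option maxHeartbeats 400000

namespace Pool.Agent.H720Z.Tame

open Set Filter Topology MeasureTheory

variable {G : Type} [AddCommGroup G] [TopologicalSpace G] [PolishSpace G] [IsTopologicalAddGroup G]

section
variable {X : Type} [TopologicalSpace X] [AddAction G X] [ContinuousVAdd G X]

/-- `x` lies in the closure of the `V`-orbit of `y`. -/
def Cl (V : AddSubgroup G) (x y : X) : Prop := x ∈ closure {z | ∃ v ∈ V, v +ᵥ y = z}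

omit [PolishSpace G] [IsTopologicalAddGroup G] [TopologicalSpace G] [ContinuousVAdd G X] in
theorem Cl.of_mem {V : AddSubgroup G} {v : G} (hv : v ∈ V) (y : X) : Cl V (v +ᵥ y) y :=
  subset_closure ⟨v, hv, rfl⟩

omit [PolishSpace G] [IsTopologicalAddGroup G] in
theorem Cl.vadd {V : AddSubgroup G} {x y : X} (h : Cl V x y) (g : G) :
    Cl V (g +ᵥ x) (g +ᵥ y) := by
  have hc : Continuous fun z : X => g +ᵥ z := by fun_prop
  refine map_mem_closure hc h ?_
  rintro z ⟨v, hv, rfl⟩
  exact ⟨v, hv, by rw [vadd_vadd, vadd_vadd, add_comm]⟩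

omit [PolishSpace G] [IsTopologicalAddGroup G] in
theorem Cl.trans {V : AddSubgroup G} {x y z : X} (h : Cl V x y) (h' : Cl V y z) : Cl V x z := by
  refine closure_minimal ?_ isClosed_closure h
  rintro w ⟨v, hv, rfl⟩
  have hc : Continuous fun z : X => v +ᵥ z := by fun_prop
  refine map_mem_closure hc h' ?_
  rintro z ⟨u, hu, rfl⟩
  exact ⟨v + u, V.add_mem hv hu, by rw [vadd_vadd]⟩

omit [PolishSpace G] [IsTopologicalAddGroup G] [TopologicalSpace G] [ContinuousVAdd G X] in
theorem Cl.mono {V W : AddSubgroup G} (hVW : V ≤ W) {x y : X} (h : Cl V x y) : Cl W x y := by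
  refine closure_mono ?_ h
  rintro w ⟨v, hv, rfl⟩
  exact ⟨v, hVW hv, rfl⟩

end

theorem tame_of_good (B : Basis G) (tor : ∀ x ∈ B.V 0, ∀ m, ∃ N : ℕ, N ≠ 0 ∧ N • x ∈ B.V m)
    (soc : ∀ p : ℕ, p.Prime → ∃ j, ∀ m, j ≤ m → SocFin (B.V m) (B.V (m + 1)) p) : IsTame G := by
  intro X _ _ _ _
  letI := TopologicalSpace.upgradeIsCompletelyMetrizable X
  letI : MeasurableSpace (X × X) := borel (X × X)
  haveI : BorelSpace (X × X) := ⟨rfl⟩
  have mCl : ∀ (V : AddSubgroup G) (f g : X × X → X), Continuous f → Continuous g →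
      MeasurableSet {z | Cl V (f z) (g z)} := by
    intro V f g hf hg
    have e : {z | Cl V (f z) (g z)} =
        ⋂ k : ℕ, ⋃ v ∈ V, {z | dist (f z) (v +ᵥ g z) < 1 / ((k : ℝ) + 1)} := by
      ext z
      simp only [Cl, mem_setOf_eq, Metric.mem_closure_iff, mem_iInter, mem_iUnion]
      constructor
      · intro h k
        obtain ⟨b, ⟨v, hv, rfl⟩, hb⟩ := h _ (Nat.one_div_pos_of_nat (n := k))
        exact ⟨v, hv, hb⟩
      · intro h ε hε
        obtain ⟨k, hk⟩ := exists_nat_one_div_lt hε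
        obtain ⟨v, hv, hb⟩ := h k
        exact ⟨_, ⟨v, hv, rfl⟩, hb.trans hk⟩
    rw [e]
    refine MeasurableSet.iInter fun k => IsOpen.measurableSet ?_
    refine isOpen_iUnion fun v => isOpen_iUnion fun _ => isOpen_lt ?_ continuous_const
    fun_prop
  let T : X × X → ℕ → Set G := fun z m =>
    {g | Cl (B.V m) (g +ᵥ z.1) z.2 ∧ Cl (B.V m) z.2 (g +ᵥ z.1)}
  have e : {p : X × X | ∃ g : G, g +ᵥ p.1 = p.2} = {z | ∃ g, ∀ m, g ∈ T z m} := by
    ext z
    refine exists_congr fun g => ?_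
    constructor
    · intro h m
      have h1 : Cl (B.V m) z.2 z.2 := by simpa using Cl.of_mem (B.V m).zero_mem z.2
      change Cl (B.V m) (g +ᵥ z.1) z.2 ∧ Cl (B.V m) z.2 (g +ᵥ z.1)
      rw [h]
      exact ⟨h1, h1⟩
    · intro h
      apply eq_of_forall_dist_le
      intro ε hε
      have h2 : {v : G | dist (v +ᵥ z.2) z.2 < ε} ∈ 𝓝 (0 : G) := by
        apply IsOpen.mem_nhds
        · exact isOpen_lt (by fun_prop) continuous_const
        · simpa using hε
      obtain ⟨m, hm⟩ := B.small _ h2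
      have h3 : g +ᵥ z.1 ∈ Metric.closedBall z.2 ε := by
        refine closure_minimal ?_ Metric.isClosed_closedBall (h m).1
        rintro w ⟨v, hv, rfl⟩
        have h5 : dist (v +ᵥ z.2) z.2 < ε := hm hv
        exact h5.le
      exact h3
  rw [e]
  refine meas_branch B tor soc T (fun g n => ?_) (fun z a b hab g hg => ?_) ?_ ?_
  · exact (mCl _ _ _ (by fun_prop) (by fun_prop)).inter (mCl _ _ _ (by fun_prop) (by fun_prop))
  · exact ⟨hg.1.mono (B.anti hab), hg.2.mono (B.anti hab)⟩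
  · rintro z n a ⟨ha, ha'⟩ b ⟨hb, hb'⟩ c ⟨hc, hc'⟩
    have h1 := (ha.trans hb').vadd (c - b)
    have h2 := (hb.trans ha').vadd (c - b)
    rw [vadd_vadd, vadd_vadd, sub_add_cancel, show c - b + a = a - b + c by abel] at h1 h2
    exact ⟨h1.trans hc, hc'.trans h2⟩
  · rintro z n a ⟨ha, ha'⟩ b hb
    have h1 := Cl.of_mem hb (a +ᵥ z.1)
    have h2 := Cl.of_mem ((B.V n).neg_mem hb) (b +ᵥ z.1)
    rw [vadd_vadd, sub_add_cancel] at h1
    rw [vadd_vadd, show -(b - a) + b = a by abel] at h2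
    exact ⟨h1.trans ha, ha'.trans h2⟩

theorem closedEmb (B : Basis G) (K : ℕ → Type) [∀ i, AddCommGroup (K i)]
    [∀ i, TopologicalSpace (K i)] [∀ i, DiscreteTopology (K i)] (f : G →+ ∀ i, K i)
    (h1 : ∀ i, ∀ x ∈ B.V i, f x i = 0)
    (h2 : ∀ n, ∃ N, ∀ x, (∀ i, i ≤ N → f x i = 0) → x ∈ B.V n) : IsClosedEmbedding f := by
  have hc : Continuous f := by
    refine continuous_of_continuousAt_zero f ?_
    rw [ContinuousAt, map_zero, tendsto_pi_nhds]
    intro i
    apply tendsto_const_nhds.congr'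
    filter_upwards [(B.isOpen i).mem_nhds (B.V i).zero_mem] with x hx
    exact (h1 i x hx).symm
  have hind : IsInducing f := by
    rw [IsTopologicalAddGroup.isInducing_iff_nhds_zero]
    refine le_antisymm ?_ ?_
    · have := hc.tendsto 0
      rw [map_zero] at this
      exact this.le_comap
    · intro U hU
      obtain ⟨m, hm⟩ := B.small U hU
      obtain ⟨N, hN⟩ := h2 m
      have h3 : ∀ᶠ y : ∀ i, K i in 𝓝 0, ∀ i ∈ Finset.range (N + 1), y i = 0 := by
        rw [eventually_all_finset]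
        intro i _
        have h4 : IsOpen {y : ∀ i, K i | y i = 0} :=
          (isOpen_discrete ({0} : Set (K i))).preimage (continuous_apply i)
        exact h4.mem_nhds rfl
      refine mem_comap.mpr ⟨_, h3, fun x hx => hm (hN x fun i hi => ?_)⟩
      exact hx i (Finset.mem_range.mpr (Nat.lt_succ_of_le hi))
  have hinj : Function.Injective f := by
    rw [injective_iff_map_eq_zero]
    intro x hx
    by_contra h
    obtain ⟨m, hm⟩ := B.small {x}ᶜ (compl_singleton_mem_nhds (Ne.symm h))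
    obtain ⟨N, hN⟩ := h2 m
    exact hm (hN x fun i _ => by rw [hx]; rfl) rfl
  refine ⟨⟨hind, hinj⟩, ?_⟩
  rw [← closure_subset_iff_isClosed]
  intro y hy
  choose N hN using h2
  have h3 : ∀ M : ℕ, ∃ x, ∀ i, i ≤ M → f x i = y i := by
    intro M
    have h4 : ∀ᶠ w : ∀ i, K i in 𝓝 y, ∀ i ∈ Finset.range (M + 1), w i = y i := by
      rw [eventually_all_finset]
      intro i _
      have h4 : IsOpen {w : ∀ i, K i | w i = y i} :=
        (isOpen_discrete ({y i} : Set (K i))).preimage (continuous_apply i)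
      exact h4.mem_nhds rfl
    obtain ⟨w, hw, x, rfl⟩ := mem_closure_iff_nhds.mp hy _ h4
    exact ⟨x, fun i hi => hw i (Finset.mem_range.mpr (Nat.lt_succ_of_le hi))⟩
  choose x hx using h3
  let Q : ℕ → ℕ := fun m => (Finset.range (m + 1)).sup N + m
  have hQ : ∀ k m, k ≤ m → N k ≤ Q m := fun k m h =>
    (Finset.le_sup (f := N) (Finset.mem_range.mpr (Nat.lt_succ_of_le h))).trans
      (Nat.le_add_right _ _)
  obtain ⟨g, hg⟩ := B.complete (fun m => x (Q m)) (fun m => hN m _ fun i hi => by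
    rw [map_sub, Pi.sub_apply, hx _ i (hi.trans (hQ m (m + 1) (Nat.le_succ m))),
      hx _ i (hi.trans (hQ m m le_rfl)), sub_self])
  refine ⟨g, funext fun i => ?_⟩
  have h5 := h1 i _ (hg i)
  rw [map_sub, Pi.sub_apply, hx _ i (Nat.le_add_left _ _), sub_eq_zero] at h5
  exact h5

end Pool.Agent.H720Z.Tame
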