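import Pool.Agent.H720Z.Tame.Gadget

set_option autoImplicit false
set_option maxHeartbeats 400000

namespace Pool.Agent.H720Z.Tame

open Set Filter Topology MeasureTheory

theorem exists_coprime_rel (r s : AddCircle (1 : ℚ)) :
    ∃ a b : ℤ, IsCoprime a b ∧ a • r + b • s = 0 := by
  obtain ⟨r, rfl⟩ := QuotientAddGroup.mk_surjective r
  obtain ⟨s, rfl⟩ := QuotientAddGroup.mk_surjective s
  by_cases h : r = 0
  · exact ⟨1, 0, isCoprime_one_left, by simp [h]⟩
  · refine ⟨-(s / r).num, (s / r).den, ?_, ?_⟩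
    · rw [IsCoprime.neg_left_iff, Int.isCoprime_iff_gcd_eq_one]
      exact (s / r).reduced
    · rw [← QuotientAddGroup.mk_zsmul, ← QuotientAddGroup.mk_zsmul, ← QuotientAddGroup.mk_add]
      have h1 : ((s / r).num : ℚ) = s / r * (s / r).den := (Rat.mul_den_eq_num _).symm
      have : (-(s / r).num) • r + ((s / r).den : ℤ) • s = 0 := by
        simp only [zsmul_eq_mul, Int.cast_neg, Int.cast_natCast]
        rw [h1]
        field_simp
        ring
      rw [this]
      rfl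

section
variable {G : Type} [AddCommGroup G]

theorem natAbs_smul_mem {V : AddSubgroup G} {c : ℤ} {x : G} (h : c • x ∈ V) : c.natAbs • x ∈ V := by
  rw [← natCast_zsmul]
  rcases Int.natAbs_eq c with h1 | h1
  · rw [← h1]; exact h
  · have : (c.natAbs : ℤ) = - c := by omega
    rw [this, neg_smul]; exact V.neg_mem h

theorem fin_closure (S : Set G) (hS : S.Finite) (h : ∀ q ∈ S, IsOfFinAddOrder q) :
    (AddSubgroup.closure S : Set G).Finite := by
  induction S, hS using Set.Finite.induction_on with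
  | empty => simp
  | @insert a S _ _ ih =>
    have h1 := ih fun q hq => h q (mem_insert_of_mem _ hq)
    have h2 : (AddSubgroup.zmultiples a : Set G).Finite :=
      finite_zmultiples.mpr (h a (mem_insert _ _))
    refine (h2.image2 (· + ·) h1).subset fun x hx => ?_
    rw [insert_eq, AddSubgroup.closure_union, ← AddSubgroup.zmultiples_eq_closure] at hx
    obtain ⟨y, hy, z, hz, rfl⟩ := AddSubgroup.mem_sup.mp hx
    exact ⟨y, hy, z, hz, rfl⟩

theorem inf_ker {Q : Type} [AddCommGroup Q] (π : G →+ Q) (E : AddSubgroup G) (p : ℕ) (hp : p.Prime)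
    (hE : ∀ x ∈ E, p • π x = 0) (hinf : (E.map π : Set Q).Infinite) (χ : G →+ AddCircle (1 : ℚ)) :
    ((E ⊓ χ.ker).map π : Set Q).Infinite := by
  intro hF
  set F := (E ⊓ χ.ker).map π with hFdef
  obtain ⟨_, ⟨x, hx, rfl⟩, hxF⟩ := hinf.exists_notMem_finite hF
  have h2 : (AddSubgroup.zmultiples (π x) : Set Q).Finite :=
    finite_zmultiples.mpr (isOfFinAddOrder_iff_nsmul_eq_zero.mpr ⟨p, hp.pos, hE x hx⟩)
  obtain ⟨_, ⟨y, hy, rfl⟩, hyF⟩ := hinf.exists_notMem_finite (hF.image2 (· + ·) h2)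
  obtain ⟨a, b, hab, h0⟩ := exists_coprime_rel (χ x) (χ y)
  have h3 : a • π x + b • π y ∈ F := ⟨a • x + b • y, ⟨E.add_mem (E.zsmul_mem hx _)
    (E.zsmul_mem hy _), by simpa using h0⟩, by simp⟩
  have hpx : (p : ℤ) • π x = 0 := by rw [natCast_zsmul]; exact hE x hx
  have hpy : (p : ℤ) • π y = 0 := by rw [natCast_zsmul]; exact hE y hy
  have hpp : Prime (p : ℤ) := Nat.prime_iff_prime_int.mp hp
  by_cases hb : (p : ℤ) ∣ b
  · obtain ⟨d, rfl⟩ := hb
    obtain ⟨u, v, huv⟩ := hab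
    apply hxF
    have h4 : π x = u • (a • π x + (p * d) • π y) := by
      have h5 : u * a = 1 - v * d * p := by linarith
      rw [smul_add, smul_smul, h5, mul_comm (p : ℤ) d, mul_smul d, hpy, sub_smul, mul_smul, hpx]
      simp
    rw [h4]
    exact F.zsmul_mem h3 u
  · obtain ⟨u, v, huv⟩ := (hpp.irreducible.coprime_iff_not_dvd).mpr hb
    apply hyF
    refine ⟨v • (a • π x + b • π y), F.zsmul_mem h3 v, (-(v * a)) • π x,
      AddSubgroup.zsmul_mem_zmultiples _ _, ?_⟩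
    have h5 : v * b = 1 - u * p := by linarith
    simp only [smul_add, smul_smul]
    rw [h5, sub_smul, mul_smul u, hpy]
    simp

theorem inf_kers {Q : Type} [AddCommGroup Q] (π : G →+ Q) (E : AddSubgroup G) (p : ℕ)
    (hp : p.Prime) (hE : ∀ x ∈ E, p • π x = 0) (hinf : (E.map π : Set Q).Infinite)
    (Φ : Set (G →+ AddCircle (1 : ℚ))) (hΦ : Φ.Finite) :
    ∃ E' : AddSubgroup G, E' ≤ E ∧ (E'.map π : Set Q).Infinite ∧ ∀ x ∈ E', ∀ χ ∈ Φ, χ x = 0 := by
  induction Φ, hΦ using Set.Finite.induction_on with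
  | empty => exact ⟨E, le_rfl, hinf, by simp⟩
  | @insert χ Φ _ _ ih =>
    obtain ⟨E', h1, h2, h3⟩ := ih
    refine ⟨E' ⊓ χ.ker, inf_le_left.trans h1,
      inf_ker π E' p hp (fun x hx => hE x (h1 hx)) h2 χ, ?_⟩
    rintro x ⟨hx1, hx2⟩ ψ (rfl | hψ)
    · exact hx2
    · exact h3 x hx1 ψ hψ

theorem exists_char (V : AddSubgroup G) (q : G ⧸ V) :
    ∃ χ : G →+ AddCircle (1 : ℚ), (∀ v ∈ V, χ v = 0) ∧
      ∀ x, QuotientAddGroup.mk x = q → x ∉ V → χ x ≠ 0 := by
  by_cases h : q = 0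
  · refine ⟨0, by simp, fun x hx hxV => absurd ?_ hxV⟩
    rw [h] at hx
    exact (QuotientAddGroup.eq_zero_iff _).mp hx
  · obtain ⟨c, hc⟩ := CharacterModule.exists_character_apply_ne_zero_of_ne_zero h
    let c' : (G ⧸ V) →+ AddCircle (1 : ℚ) := c
    refine ⟨c'.comp (QuotientAddGroup.mk' V), fun v hv => ?_, fun x hx _ => ?_⟩
    · rw [AddMonoidHom.comp_apply, QuotientAddGroup.mk'_apply,
        (QuotientAddGroup.eq_zero_iff _).mpr hv, map_zero]
    · rw [AddMonoidHom.comp_apply, QuotientAddGroup.mk'_apply, hx]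
      exact hc

theorem select_step (V : ℕ → AddSubgroup G)
    (tor : ∀ x ∈ V 0, ∀ m, ∃ N : ℕ, N ≠ 0 ∧ N • x ∈ V m) (p : ℕ) (hp : p.Prime) (k M : ℕ)
    (hk : ¬ SocFin (V k) (V (k + 1)) p) (P : Set G) (hP : P.Finite) (hP0 : ∀ a ∈ P, a ∈ V 0) :
    ∃ x, x ∈ V k ∧ x ∉ V (k + 1) ∧ p • x ∈ V (k + 1) ∧
      ∀ m, m ≤ M → ∀ c : ℤ, ∀ y ∈ AddSubgroup.closure P, c • x + y ∈ V m → y ∈ V m := by
  choose ch hch1 hch2 using fun m => exists_char (V m)
  have hfin : ∀ m, (AddSubgroup.closure (QuotientAddGroup.mk' (V m) '' P) : Set (G ⧸ V m)).Finite := by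
    intro m
    refine fin_closure _ (hP.image _) ?_
    rintro _ ⟨a, ha, rfl⟩
    obtain ⟨N, hN, hNa⟩ := tor a (hP0 a ha) m
    refine isOfFinAddOrder_iff_nsmul_eq_zero.mpr ⟨N, Nat.pos_of_ne_zero hN, ?_⟩
    rw [← map_nsmul]
    exact (QuotientAddGroup.eq_zero_iff _).mpr hNa
  let Φ : Set (G →+ AddCircle (1 : ℚ)) := ⋃ m ∈ Set.Iic M,
    ch m '' (AddSubgroup.closure (QuotientAddGroup.mk' (V m) '' P) : Set (G ⧸ V m))
  have hΦ : Φ.Finite := (Set.finite_Iic M).biUnion fun m _ => (hfin m).image _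
  let π := QuotientAddGroup.mk' (V (k + 1))
  let E : AddSubgroup G := V k ⊓ (V (k + 1)).comap (nsmulAddMonoidHom p)
  have hE : ∀ x ∈ E, p • π x = 0 := fun x hx => by
    rw [← map_nsmul]
    exact (QuotientAddGroup.eq_zero_iff _).mpr hx.2
  have hinf : (E.map π : Set (G ⧸ V (k + 1))).Infinite := by
    intro h
    refine hk (h.subset ?_)
    rintro _ ⟨⟨x, hx, rfl⟩, hq⟩
    refine ⟨x, ⟨hx, ?_⟩, rfl⟩
    rw [← map_nsmul] at hq
    exact (QuotientAddGroup.eq_zero_iff (p • x)).mp hq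
  obtain ⟨E', h1, h2, h3⟩ := inf_kers π E p hp hE hinf Φ hΦ
  obtain ⟨_, ⟨x, hx, rfl⟩, hx0⟩ := h2.exists_notMem_finite (Set.finite_singleton 0)
  refine ⟨x, (h1 hx).1, fun h => hx0 ((QuotientAddGroup.eq_zero_iff _).mpr h), (h1 hx).2, ?_⟩
  intro m hm c y hy hxy
  by_contra hyV
  have h4 : QuotientAddGroup.mk' (V m) y ∈
      AddSubgroup.closure (QuotientAddGroup.mk' (V m) '' P) := by
    rw [← AddMonoidHom.map_closure]
    exact ⟨y, hy, rfl⟩
  have h5 := h3 x hx (ch m (QuotientAddGroup.mk' (V m) y))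
    (mem_biUnion (s := Set.Iic M) hm ⟨_, h4, rfl⟩)
  have h6 := hch1 m (QuotientAddGroup.mk' (V m) y) _ hxy
  rw [map_add, map_zsmul, h5, smul_zero, zero_add] at h6
  exact hch2 m _ y rfl hyV h6

end

theorem exists_seq_strong {α : Type} (I : α → Prop) (R : ℕ → Set α → α → Prop)
    (h : ∀ n (F : Set α), F.Finite → (∀ a ∈ F, I a) → ∃ a, I a ∧ R n F a) :
    ∃ x : ℕ → α, ∀ n, R n (x '' {i | i < n}) (x n) := by
  choose f hf1 hf2 using h
  let S : ℕ → {F : Set α // F.Finite ∧ ∀ a ∈ F, I a} := fun n =>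
    Nat.rec ⟨∅, finite_empty, by simp⟩ (fun n F => ⟨insert (f n F.1 F.2.1 F.2.2) F.1,
      F.2.1.insert _, by
        rintro a (rfl | ha)
        · exact hf1 _ _ _ _
        · exact F.2.2 a ha⟩) n
  let x : ℕ → α := fun n => f n (S n).1 (S n).2.1 (S n).2.2
  have hS : ∀ n, (S n).1 = x '' {i | i < n} := by
    intro n
    induction n with
    | zero => simp [S]
    | succ n ih =>
      have : (S (n + 1)).1 = insert (x n) (S n).1 := rfl
      rw [this, ih, ← image_insert_eq]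
      congr 1
      ext i
      simp only [mem_insert_iff, mem_setOf_eq]
      omega
  exact ⟨x, fun n => by rw [← hS]; exact hf2 _ _ _ _⟩

variable {G : Type} [AddCommGroup G] [TopologicalSpace G] [PolishSpace G] [IsTopologicalAddGroup G]

theorem not_tame_b' (B : Basis G) (tor : ∀ x ∈ B.V 0, ∀ m, ∃ N : ℕ, N ≠ 0 ∧ N • x ∈ B.V m)
    (p : ℕ) (hp : p.Prime) (hk : ∀ k, ¬ SocFin (B.V k) (B.V (k + 1)) p) : ¬ IsTame G := by
  classical
  let e : List ℕ ≃ ℕ := Denumerable.eqv _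
  let l : ℕ → ℕ := fun n => (e.symm n).length
  let M : ℕ → ℕ := fun n => (Finset.range (n + 1)).sup l + 1
  have hM : ∀ i n, i ≤ n → l i < M n := fun i n h =>
    Nat.lt_succ_of_le (Finset.le_sup (f := l) (Finset.mem_range.mpr (Nat.lt_succ_of_le h)))
  obtain ⟨x, hx⟩ := exists_seq_strong (fun a => a ∈ B.V 0)
    (fun n P x => x ∈ B.V (l n) ∧ x ∉ B.V (l n + 1) ∧ p • x ∈ B.V (l n + 1) ∧
      ∀ m, m ≤ M n → ∀ c : ℤ, ∀ y ∈ AddSubgroup.closure P, c • x + y ∈ B.V m → y ∈ B.V m)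
    (fun n F hF hF0 => by
      obtain ⟨a, ha⟩ := select_step B.V tor p hp (l n) (M n) (hk _) F hF hF0
      exact ⟨a, B.anti (Nat.zero_le _) ha.1, ha⟩)
  have ind : ∀ (c : ℕ → ℤ) N m, ∑ i ∈ Finset.range N, c i • x i ∈ B.V m →
      ∀ i, i < N → l i < m → (p : ℤ) ∣ c i := by
    intro c N
    induction N with
    | zero => intro m _ i hi; omega
    | succ N ih =>
      intro m hm i hi hl
      rw [Finset.sum_range_succ, add_comm] at hm
      have h1 : c N • x N + ∑ i ∈ Finset.range N, c i • x i ∈ B.V (min m (M N)) :=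
        B.anti (min_le_left _ _) hm
      have h2 := (hx N).2.2.2 _ (min_le_right _ _) _ _ (AddSubgroup.sum_mem _ fun j hj =>
        AddSubgroup.zsmul_mem _ (AddSubgroup.subset_closure
          (mem_image_of_mem x (show j ∈ {i | i < N} from Finset.mem_range.mp hj))) _) h1
      have hlt : l i < min m (M N) := lt_min hl (hM i N (by omega))
      rcases Nat.lt_succ_iff_lt_or_eq.mp hi with h | h
      · exact ih _ h2 i h hlt
      · subst h
        have h3 : c i • x i ∈ B.V (l i + 1) := by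
          have := (B.V _).sub_mem h1 h2
          rw [add_sub_cancel_right] at this
          exact B.anti (Nat.succ_le_of_lt hlt) this
        by_contra hd
        apply (hx i).2.1
        refine mem_of_two _ _ p (c i).natAbs ?_ (hx i).2.2.1 (natAbs_smul_mem h3)
        rw [Nat.Prime.coprime_iff_not_dvd hp]
        exact fun h => hd (Int.natCast_dvd.mpr h)
  refine not_tame_b B p hp (fun s => x (e s)) (fun s => by simpa [l] using (hx (e s)).1) ?_
  intro c m hc s hs
  let N := c.support.sup e + e s + 1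
  have h1 : Finsupp.linearCombination ℤ (fun s => x (e s)) c =
      ∑ i ∈ Finset.range N, c (e.symm i) • x i := by
    rw [Finsupp.linearCombination_apply,
      Finsupp.sum_of_support_subset (s := (Finset.range N).map e.symm.toEmbedding)]
    · simp
    · intro t ht
      have := Finset.le_sup (f := e) ht
      simp only [Finset.mem_map_equiv, Equiv.symm_symm, Finset.mem_range, N]
      omega
    · simp
  rw [h1] at hc
  have := ind (fun i => c (e.symm i)) N m hc (e s) (by simp only [N]; omega) (by simpa [l] using hs)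
  simpa using this

theorem good_of_tame (B0 : Basis G) (hG : IsTame G) : ∃ B : Basis G,
    (∀ x ∈ B.V 0, ∀ m, ∃ N : ℕ, N ≠ 0 ∧ N • x ∈ B.V m) ∧
    ∀ p : ℕ, p.Prime → ∃ j, ∀ m, SocFin (B.V j) (B.V m) p := by
  have ha : ∃ j, ∀ x ∈ B0.V j, ∀ m, ∃ N : ℕ, N ≠ 0 ∧ N • x ∈ B0.V m := by
    by_contra h
    push Not at h
    obtain ⟨φ, hφ, hR⟩ := exists_subseq
      (fun j m => ∃ x ∈ B0.V j, ∀ N : ℕ, N ≠ 0 → N • x ∉ B0.V m)
      (fun j => by
        obtain ⟨x, hx, m, hm⟩ := h j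
        exact ⟨m, x, hx, hm⟩)
      (fun j m ⟨x, hx, hm⟩ => by
        by_contra hc
        exact hm 1 one_ne_zero (by simpa using B0.anti (not_lt.mp hc) hx))
    choose y hy1 hy2 using hR
    exact not_tame_a (B0.sub φ hφ) y hy1 (fun k N hN => by
      by_contra h0
      exact hy2 k N h0 hN) hG
  obtain ⟨j0, hj0⟩ := ha
  let B := B0.sub (fun k => j0 + k) (fun a b hab => by simpa using hab)
  have tor : ∀ x ∈ B.V 0, ∀ m, ∃ N : ℕ, N ≠ 0 ∧ N • x ∈ B.V m := fun x hx m => hj0 x hx _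
  refine ⟨B, tor, fun p hp => ?_⟩
  by_contra h
  push Not at h
  obtain ⟨φ, hφ, hR⟩ := exists_subseq (fun j m => ¬ SocFin (B.V j) (B.V m) p) h
    (fun j m hm => by
      by_contra hc
      refine hm ((Set.finite_singleton 0).subset ?_)
      rintro _ ⟨⟨x, hx, rfl⟩, -⟩
      exact (QuotientAddGroup.eq_zero_iff _).mpr (B.anti (not_lt.mp hc) hx))
  exact not_tame_b' (B.sub φ hφ) (fun x hx m => tor x (B.anti (Nat.zero_le _) hx) _) p hp hR hG

end Pool.Agent.H720Z.Tame
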