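import Pool.Agent.H720Z.Tame.Select
import Pool.Agent.H720Z.Tame.Orbit

set_option autoImplicit false
set_option maxHeartbeats 400000

namespace Pool.Agent.H720Z.Tame

open Set Filter Topology MeasureTheory

/-- Divisibility as a proposition. -/
def Dv (D : Type) [AddCommGroup D] : Prop := ∀ n : ℤ, n ≠ 0 → ∀ d : D, ∃ e, n • e = d

theorem Dv.extend {D : Type} [AddCommGroup D] (hD : Dv D) {M N : Type} [AddCommGroup M]
    [AddCommGroup N] (f : M →+ N) (hf : Function.Injective f) (g : M →+ D) :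
    ∃ h : N →+ D, h.comp f = g := by
  letI : DivisibleBy D ℤ := divisibleByOfSMulRightSurj D ℤ (fun {n} hn d => hD n hn d)
  exact (Module.Baer.of_divisible D).extension_property_addMonoidHom f hf g

theorem Dv.finsupp {D : Type} [AddCommGroup D] (hD : Dv D) : Dv (ℕ →₀ D) := by
  classical
  intro n hn d
  choose e he using hD n hn
  refine ⟨d.mapRange (fun x => if x = 0 then 0 else e x) (by simp), ?_⟩
  ext i
  simp only [Finsupp.smul_apply, Finsupp.mapRange_apply]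
  split_ifs with h
  · rw [h, smul_zero]
  · exact he _

theorem Dv.cyc {D : Type} [AddCommGroup D] (hD : Dv D) {Q : Type} [AddCommGroup Q] (q : Q) (d : D)
    (h : addOrderOf d = addOrderOf q) : ∃ χ : Q →+ D, χ q = d := by
  let q' : AddSubgroup.zmultiples q := ⟨q, AddSubgroup.mem_zmultiples q⟩
  have hg : ∀ x, x ∈ AddSubgroup.zmultiples q' := by
    rintro ⟨_, k, rfl⟩
    exact ⟨k, rfl⟩
  have ho : addOrderOf d ∣ addOrderOf q' := by
    rw [h, AddSubgroup.addOrderOf_mk]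
  obtain ⟨χ, hχ⟩ := hD.extend (AddSubgroup.zmultiples q).subtype Subtype.val_injective
    (addMonoidHomOfForallMemZMultiples hg ho)
  refine ⟨χ, ?_⟩
  have := DFunLike.congr_fun hχ q'
  rw [addMonoidHomOfForallMemZMultiples_apply_gen] at this
  exact this

theorem Dv.emb {D : Type} [AddCommGroup D] (hD : Dv D) {A : Type} [AddCommGroup A] [Countable A]
    (h : ∀ a : A, ∀ m, m ∣ addOrderOf a → ∃ d : D, addOrderOf d = m) :
    ∃ φ : A →+ (ℕ →₀ D), Function.Injective φ := by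
  classical
  obtain ⟨a, ha⟩ := exists_surjective_nat A
  let S : ℕ → AddSubgroup A := fun k => AddSubgroup.closure (a '' {i | i < k})
  have h1 : ∀ k, ∃ χ : A →+ D, (∀ x ∈ S k, χ x = 0) ∧ ∀ n : ℤ, χ (n • a k) = 0 → n • a k ∈ S k := by
    intro k
    obtain ⟨d, hd⟩ := h (a k) _ (addOrderOf_map_dvd (QuotientAddGroup.mk' (S k)) (a k))
    obtain ⟨χ, hχ⟩ := hD.cyc _ d hd
    refine ⟨χ.comp (QuotientAddGroup.mk' (S k)), fun x hx => ?_, fun n hn => ?_⟩
    · rw [AddMonoidHom.comp_apply, QuotientAddGroup.mk'_apply,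
        (QuotientAddGroup.eq_zero_iff _).mpr hx, map_zero]
    · rw [map_zsmul, AddMonoidHom.comp_apply, hχ, ← addOrderOf_dvd_iff_zsmul_eq_zero, hd,
        addOrderOf_dvd_iff_zsmul_eq_zero, ← map_zsmul] at hn
      exact (QuotientAddGroup.eq_zero_iff (n • a k)).mp hn
  choose χ hχ1 hχ2 using h1
  have hfin : ∀ x, (Function.support fun k => χ k x).Finite := by
    intro x
    obtain ⟨i, rfl⟩ := ha x
    refine (Set.finite_Iic i).subset fun k hk => ?_
    by_contra hc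
    exact hk (hχ1 k _ (AddSubgroup.subset_closure ⟨i, (show i < k from not_le.mp hc), rfl⟩))
  let φ : A →+ (ℕ →₀ D) :=
    { toFun := fun x => Finsupp.ofSupportFinite (fun k => χ k x) (hfin x)
      map_zero' := by ext k; simp [Finsupp.ofSupportFinite_coe]
      map_add' := fun x y => by ext k; simp [Finsupp.ofSupportFinite_coe] }
  refine ⟨φ, (injective_iff_map_eq_zero _).mpr fun x hx => ?_⟩
  have hx' : ∀ k, χ k x = 0 := fun k => by
    have := DFunLike.congr_fun hx k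
    simpa [φ, Finsupp.ofSupportFinite_coe] using this
  have h2 : ∀ k, x ∈ S k → x = 0 := by
    intro k
    induction k with
    | zero => simp [S]
    | succ k ih =>
      intro hk
      have e : a '' {i | i < k + 1} = {a k} ∪ a '' {i | i < k} := by
        rw [← image_singleton, ← image_union]
        congr 1
        ext i
        simp only [mem_setOf_eq, mem_union, mem_singleton_iff]
        omega
      simp only [S] at hk
      rw [e, AddSubgroup.closure_union, ← AddSubgroup.zmultiples_eq_closure] at hk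
      obtain ⟨_, ⟨n, rfl⟩, z, hz, rfl⟩ := AddSubgroup.mem_sup.mp hk
      have h3 := hx' k
      rw [map_add, hχ1 k z hz, add_zero] at h3
      exact ih ((S k).add_mem (hχ2 k n h3) hz)
  obtain ⟨i, rfl⟩ := ha x
  exact h2 (i + 1) (AddSubgroup.subset_closure ⟨i, Nat.lt_succ_self i, rfl⟩)

/-- The subgroup divided out at level `n`. -/
def SS (n : ℕ) : AddSubgroup (ℚ × ℚ) where
  carrier := {x | (n = 0 → x.1 = 0) ∧ ∃ e : ℕ, ∃ z : ℤ, (n.factorial : ℚ) ^ e * x.2 = z}
  zero_mem' := ⟨fun _ => rfl, 0, 0, by simp⟩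
  add_mem' := by
    rintro x y ⟨h1, e, z, h2⟩ ⟨h3, e', z', h4⟩
    refine ⟨fun h => by simp [h1 h, h3 h], e + e', n.factorial ^ e' * z + n.factorial ^ e * z', ?_⟩
    push_cast
    rw [← h2, ← h4, Prod.snd_add]
    ring
  neg_mem' := by
    rintro x ⟨h1, e, z, h2⟩
    refine ⟨fun h => by simp [h1 h], e, -z, ?_⟩
    push_cast
    rw [← h2, Prod.snd_neg]
    ring

/-- The divisible group at level `n`. -/
abbrev DD (n : ℕ) : Type := (ℚ × ℚ) ⧸ SS n

theorem DD_dv (n : ℕ) : Dv (DD n) := by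
  intro k hk d
  obtain ⟨x, rfl⟩ := QuotientAddGroup.mk_surjective d
  refine ⟨QuotientAddGroup.mk ((k : ℚ)⁻¹ • x), ?_⟩
  rw [← QuotientAddGroup.mk_zsmul, ← Int.cast_smul_eq_zsmul ℚ, smul_smul,
    mul_inv_cancel₀ (Int.cast_ne_zero.mpr hk), one_smul]

theorem DD_tor (n : ℕ) (hn : n ≠ 0) (d : DD n) : ∃ N : ℕ, N ≠ 0 ∧ N • d = 0 := by
  obtain ⟨x, rfl⟩ := QuotientAddGroup.mk_surjective d
  refine ⟨x.2.den, x.2.den_ne_zero, ?_⟩
  rw [← QuotientAddGroup.mk_nsmul, QuotientAddGroup.eq_zero_iff]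
  refine ⟨fun h => absurd h hn, 0, x.2.num, ?_⟩
  simp [Rat.den_mul_eq_num]

theorem DD_soc (n p : ℕ) (hp : p.Prime) (hpn : p ≤ n) (d : DD n) (h : p • d = 0) : d = 0 := by
  obtain ⟨x, rfl⟩ := QuotientAddGroup.mk_surjective d
  rw [← QuotientAddGroup.mk_nsmul, QuotientAddGroup.eq_zero_iff] at h
  rw [QuotientAddGroup.eq_zero_iff]
  obtain ⟨-, e, z, h2⟩ := h
  obtain ⟨c, hc⟩ := Nat.dvd_factorial hp.pos hpn
  refine ⟨fun h => absurd hp.pos (by omega), e + 1, c * z, ?_⟩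
  push_cast
  rw [← h2, pow_succ]
  nth_rewrite 2 [hc]
  rw [Prod.smul_snd, nsmul_eq_mul]
  push_cast
  ring

theorem DD_order (n m : ℕ) (h0 : n ≠ 0 → m ≠ 0) (hc : Nat.Coprime m n.factorial) :
    ∃ d : DD n, addOrderOf d = m := by
  by_cases hm : m = 0
  · have hn : n = 0 := by by_contra h; exact h0 h hm
    refine ⟨QuotientAddGroup.mk (1, 0), ?_⟩
    rw [hm, addOrderOf_eq_zero_iff']
    intro k hk h
    rw [← QuotientAddGroup.mk_nsmul, QuotientAddGroup.eq_zero_iff] at h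
    have := h.1 hn
    simp at this
    omega
  · refine ⟨QuotientAddGroup.mk (0, (m : ℚ)⁻¹), ?_⟩
    have hm' : (m : ℚ) ≠ 0 := Nat.cast_ne_zero.mpr hm
    apply Nat.dvd_antisymm
    · rw [addOrderOf_dvd_iff_nsmul_eq_zero, ← QuotientAddGroup.mk_nsmul,
        QuotientAddGroup.eq_zero_iff]
      refine ⟨fun _ => by simp, 0, 1, ?_⟩
      simp [hm']
    · have h := addOrderOf_nsmul_eq_zero (QuotientAddGroup.mk (0, (m : ℚ)⁻¹) : DD n)
      set k := addOrderOf (QuotientAddGroup.mk (0, (m : ℚ)⁻¹) : DD n)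
      rw [← QuotientAddGroup.mk_nsmul, QuotientAddGroup.eq_zero_iff] at h
      obtain ⟨-, e, z, h2⟩ := h
      rw [Prod.smul_snd, nsmul_eq_mul] at h2
      have h3 : ((n.factorial ^ e * k : ℕ) : ℤ) = m * z := by
        have h4 : ((n.factorial : ℚ) ^ e * k) = m * z := by
          rw [← h2]; simp only; field_simp
        exact_mod_cast h4
      have h5 : m ∣ n.factorial ^ e * k := Int.natCast_dvd_natCast.mp ⟨z, h3⟩
      exact (Nat.Coprime.pow_right e hc).dvd_of_dvd_mul_left h5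

theorem level_emb {G : Type} [AddCommGroup G] (T W : AddSubgroup G) [Countable (G ⧸ W)] (n : ℕ)
    (h0 : n ≠ 0 → ∀ x ∈ T, ∃ N : ℕ, N ≠ 0 ∧ N • x ∈ W)
    (hs : ∀ p : ℕ, p.Prime → p ≤ n → SocFin T W p) :
    ∃ ψ : G →+ (ℕ →₀ DD n), ∃ χ : ℕ → G →+ AddCircle (1 : ℚ), ∃ r : ℕ,
      (∀ x ∈ W, ψ x = 0 ∧ ∀ k, χ k x = 0) ∧
      ∀ x ∈ T, ψ x = 0 → (∀ k, k < r → χ k x = 0) → x ∈ W := by
  choose ch hch1 hch2 using exists_char W
  obtain ⟨ε, hε⟩ := exists_surjective_nat (G ⧸ W)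
  choose ι hι using hε
  let F : Set (G ⧸ W) := ⋃ p ∈ {p : ℕ | p ≤ n ∧ p.Prime},
    {q : G ⧸ W | q ∈ T.map (QuotientAddGroup.mk' W) ∧ p • q = 0}
  have hF : F.Finite := ((Set.finite_Iic n).subset fun p hp => hp.1).biUnion
    fun p hp => hs p hp.2 hp.1
  obtain ⟨r, hr⟩ := (hF.image ι).bddAbove
  let T' : AddSubgroup G := T ⊓ ⨅ k : ℕ, ⨅ _ : k < r + 1, (ch (ε k)).ker
  have hT' : ∀ x, x ∈ T' ↔ x ∈ T ∧ ∀ k, k < r + 1 → ch (ε k) x = 0 := by
    intro x
    simp only [T', AddSubgroup.mem_inf, AddSubgroup.mem_iInf, AddMonoidHom.mem_ker]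
  let A := T'.map (QuotientAddGroup.mk' W)
  have hA : ∀ p : ℕ, p.Prime → p ≤ n → ∀ a : A, p • a = 0 → a = 0 := by
    rintro p hp hpn ⟨_, x, hx, rfl⟩ ha
    have h1 : p • QuotientAddGroup.mk' W x = 0 := congrArg Subtype.val ha
    obtain ⟨hx1, hx2⟩ := (hT' x).mp hx
    have h2 : ι (QuotientAddGroup.mk' W x) ≤ r :=
      hr ⟨_, mem_biUnion (s := {p : ℕ | p ≤ n ∧ p.Prime}) ⟨hpn, hp⟩ ⟨⟨x, hx1, rfl⟩, h1⟩, rfl⟩
    have h3 := hx2 _ (Nat.lt_succ_of_le h2)
    rw [hι] at h3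
    apply Subtype.ext
    by_contra hc
    exact hch2 _ x rfl (fun h => hc ((QuotientAddGroup.eq_zero_iff x).mpr h)) h3
  obtain ⟨φ, hφ⟩ := (DD_dv n).emb (A := A) (by
    intro a m hm
    by_cases hn : n = 0
    · exact DD_order n m (fun h => absurd hn h) (by simp [hn])
    · have h1 : addOrderOf a ≠ 0 := by
        obtain ⟨_, x, hx, rfl⟩ := a
        obtain ⟨N, hN, hNx⟩ := h0 hn x ((hT' x).mp hx).1
        refine (IsOfFinAddOrder.addOrderOf_pos (isOfFinAddOrder_iff_nsmul_eq_zero.mpr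
          ⟨N, Nat.pos_of_ne_zero hN, Subtype.ext ?_⟩)).ne'
        exact (QuotientAddGroup.eq_zero_iff (N • x)).mpr hNx
      refine DD_order n m (fun _ h => h1 (by simpa [h] using hm)) ?_
      apply Nat.coprime_of_dvd
      intro p hp hpm hpn
      rw [hp.dvd_factorial] at hpn
      obtain ⟨c, hc⟩ := hpm.trans hm
      have h2 : c • a = 0 := hA p hp hpn _ (by rw [smul_smul, ← hc, addOrderOf_nsmul_eq_zero])
      have h3 := Nat.le_of_dvd (Nat.pos_of_ne_zero (by rintro rfl; exact h1 (by simpa using hc)))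
        (addOrderOf_dvd_iff_nsmul_eq_zero.mpr h2)
      have h4 := hp.two_le
      have h5 : 0 < c := Nat.pos_of_ne_zero (by rintro rfl; exact h1 (by simpa using hc))
      nlinarith)
  obtain ⟨ψ, hψ⟩ := (DD_dv n).finsupp.extend A.subtype Subtype.val_injective φ
  refine ⟨ψ.comp (QuotientAddGroup.mk' W), fun k => ch (ε k), r + 1, fun x hx =>
    ⟨?_, fun k => hch1 _ x hx⟩, fun x hx h1 h2 => ?_⟩
  · rw [AddMonoidHom.comp_apply, QuotientAddGroup.mk'_apply,
      (QuotientAddGroup.eq_zero_iff _).mpr hx, map_zero]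
  · let a : A := ⟨QuotientAddGroup.mk' W x, x, (hT' x).mpr ⟨hx, h2⟩, rfl⟩
    have h3 : φ a = 0 := by rw [← hψ]; exact h1
    have h4 : a = 0 := hφ (by rw [h3, map_zero])
    exact (QuotientAddGroup.eq_zero_iff x).mp (congrArg Subtype.val h4)

/-- The factors of the universal product. -/
def KK (n : ℕ) : Type := (ℕ →₀ DD n) × AddCircle (1 : ℚ)

noncomputable instance (n : ℕ) : AddCommGroup (KK n) :=
  inferInstanceAs (AddCommGroup ((ℕ →₀ DD n) × AddCircle (1 : ℚ)))

instance (n : ℕ) : TopologicalSpace (KK n) := ⊥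

instance (n : ℕ) : DiscreteTopology (KK n) := ⟨rfl⟩

instance : Countable (AddCircle (1 : ℚ)) := QuotientAddGroup.mk_surjective.countable

instance (n : ℕ) : Countable (DD n) := QuotientAddGroup.mk_surjective.countable

instance (n : ℕ) : Countable (KK n) :=
  inferInstanceAs (Countable ((ℕ →₀ DD n) × AddCircle (1 : ℚ)))

instance (n : ℕ) : IsTopologicalAddGroup (KK n) where
  continuous_add := continuous_of_discreteTopology
  continuous_neg := continuous_of_discreteTopology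

instance : PolishSpace (∀ n, KK n) := ⟨⟩

theorem KK_tor (n : ℕ) (hn : n ≠ 0) (x : KK n) : ∃ N : ℕ, N ≠ 0 ∧ N • x = 0 := by
  have h1 : ∀ y : ℕ →₀ DD n, ∃ N : ℕ, N ≠ 0 ∧ N • y = 0 := by
    intro y
    induction y using Finsupp.induction_linear with
    | zero => exact ⟨1, one_ne_zero, by simp⟩
    | add f g hf hg =>
      obtain ⟨N, hN, hf⟩ := hf
      obtain ⟨M, hM, hg⟩ := hg
      refine ⟨N * M, mul_ne_zero hN hM, ?_⟩
      rw [smul_add, mul_smul N M g, hg, mul_comm, mul_smul, hf]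
      simp
    | single a b =>
      obtain ⟨N, hN, hb⟩ := DD_tor n hn b
      exact ⟨N, hN, by rw [Finsupp.smul_single, hb, Finsupp.single_zero]⟩
  have h2 : ∀ y : AddCircle (1 : ℚ), ∃ N : ℕ, N ≠ 0 ∧ N • y = 0 := by
    intro y
    obtain ⟨x, rfl⟩ := QuotientAddGroup.mk_surjective y
    refine ⟨x.den, x.den_ne_zero, ?_⟩
    rw [← QuotientAddGroup.mk_nsmul, QuotientAddGroup.eq_zero_iff]
    exact ⟨x.num, by simp [Rat.den_mul_eq_num]⟩
  obtain ⟨N, hN, hf⟩ := h1 x.1
  obtain ⟨M, hM, hg⟩ := h2 x.2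
  refine ⟨N * M, mul_ne_zero hN hM, Prod.ext ?_ ?_⟩
  · change (N * M) • x.1 = 0
    rw [mul_comm, mul_smul, hf, smul_zero]
  · change (N * M) • x.2 = 0
    rw [mul_smul, hg, smul_zero]

theorem KK_soc (n p : ℕ) (hp : p.Prime) (hpn : p ≤ n) : {x : KK n | p • x = 0}.Finite := by
  refine ((AddCircle.finite_torsion (1 : ℚ) hp.pos).image
    (fun u => ((0, u) : (ℕ →₀ DD n) × AddCircle (1 : ℚ)))).subset fun x hx => ?_
  have h1 : p • x.1 = 0 := congrArg Prod.fst hx
  have h2 : p • x.2 = 0 := congrArg Prod.snd hx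
  refine ⟨x.2, h2, Prod.ext ?_ rfl⟩
  ext i
  exact (DD_soc n p hp hpn _ (DFunLike.congr_fun h1 i)).symm

/-- The standard basis of the product. -/
def KBasis : Basis (∀ n, KK n) where
  V := fun m =>
    { carrier := {h | ∀ n, n ≤ m → h n = 0}
      zero_mem' := fun _ _ => rfl
      add_mem' := fun {a b} ha hb n hn => by rw [Pi.add_apply, ha n hn, hb n hn, add_zero]
      neg_mem' := fun {a} ha n hn => by rw [Pi.neg_apply, ha n hn, neg_zero] }
  anti := fun a b hab h hh n hn => hh n (hn.trans hab)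
  isOpen := fun m => by
    have : IsOpen (⋂ n ∈ Set.Iic m, {h : ∀ n, KK n | h n = 0}) :=
      (Set.finite_Iic m).isOpen_biInter fun n _ =>
        (isOpen_discrete ({0} : Set (KK n))).preimage (continuous_apply n)
    convert this using 1
    ext h
    simp only [mem_iInter, mem_Iic]
    rfl
  small := fun N hN => by
    rw [nhds_pi, Filter.mem_pi] at hN
    obtain ⟨I, hI, t, ht, hsub⟩ := hN
    obtain ⟨m, hm⟩ := hI.bddAbove
    refine ⟨m, fun h hh => hsub fun i hi => ?_⟩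
    rw [hh i (hm hi)]
    exact mem_of_mem_nhds (ht i)

theorem mem_KBasis (m : ℕ) (h : ∀ n, KK n) : h ∈ KBasis.V m ↔ ∀ n, n ≤ m → h n = 0 := Iff.rfl

theorem KK_nonarch : NonarchimedeanAddGroup (∀ n, KK n) where
  is_nonarchimedean := fun U hU => by
    obtain ⟨m, hm⟩ := KBasis.small U hU
    exact ⟨⟨KBasis.V m, KBasis.isOpen m⟩, hm⟩

theorem KK_tame : IsTame (∀ n, KK n) := by
  refine tame_of_good KBasis (fun x hx m => ?_) (fun p hp => ⟨p, fun m hm => ?_⟩)
  · induction m with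
    | zero => exact ⟨1, one_ne_zero, by simpa using hx⟩
    | succ m ih =>
      obtain ⟨N, hN, h1⟩ := ih
      obtain ⟨M, hM, h2⟩ := KK_tor (m + 1) (Nat.succ_ne_zero m) (x (m + 1))
      refine ⟨N * M, mul_ne_zero hN hM, fun n hn => ?_⟩
      rcases Nat.lt_or_eq_of_le hn with h | h
      · have h3 : N • x n = 0 := h1 n (by omega)
        rw [Pi.smul_apply, mul_comm, mul_smul, h3, smul_zero]
      · subst h
        rw [Pi.smul_apply, mul_smul, h2, smul_zero]
  · refine ((KK_soc (m + 1) p hp (by omega)).image (fun u =>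
      (QuotientAddGroup.mk (Pi.single (m + 1) u) : (∀ n, KK n) ⧸ KBasis.V (m + 1)))).subset ?_
    rintro _ ⟨⟨x, hx, rfl⟩, hq⟩
    rw [← map_nsmul] at hq
    have h1 := (QuotientAddGroup.eq_zero_iff (p • x)).mp hq
    refine ⟨x (m + 1), h1 (m + 1) le_rfl, QuotientAddGroup.eq.mpr fun n hn => ?_⟩
    rcases Nat.lt_or_eq_of_le hn with h | h
    · rw [Pi.add_apply, Pi.neg_apply, Pi.single_eq_of_ne h.ne, hx n (by omega)]
      simp
    · subst h
      simp

theorem exists_emb {G : Type} [AddCommGroup G] [TopologicalSpace G] [PolishSpace G]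
    [NonarchimedeanAddGroup G] (hG : IsTame G) :
    ∃ f : G →+ (∀ n, KK n), IsClosedEmbedding f := by
  obtain ⟨B0⟩ := exists_basis (G := G)
  obtain ⟨B1, tor, soc⟩ := good_of_tame B0 hG
  choose! j hj using soc
  let φ : ℕ → ℕ := fun n => (Finset.range (n + 2)).sup j + n
  have hφ : StrictMono φ := strictMono_nat_of_lt_succ fun n => by
    have : (Finset.range (n + 2)).sup j ≤ (Finset.range (n + 1 + 2)).sup j :=
      Finset.sup_mono (Finset.range_mono (by omega))
    simp only [φ]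
    omega
  let B := B1.sub φ hφ
  let T : ℕ → AddSubgroup G := fun n => Nat.casesOn n ⊤ (fun k => B.V k)
  have h1 : ∀ n, ∃ ψ : G →+ (ℕ →₀ DD n), ∃ χ : ℕ → G →+ AddCircle (1 : ℚ), ∃ r : ℕ,
      (∀ x ∈ B.V n, ψ x = 0 ∧ ∀ k, χ k x = 0) ∧
      ∀ x ∈ T n, ψ x = 0 → (∀ k, k < r → χ k x = 0) → x ∈ B.V n := by
    intro n
    haveI := countable_quot _ (B.isOpen n)
    refine level_emb (T n) (B.V n) n (fun hn x hx => ?_) (fun p hp hpn => ?_)
    · cases n with
      | zero => exact absurd rfl hn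
      | succ k => exact tor x (B1.anti (Nat.zero_le _) hx) _
    · cases n with
      | zero => exact absurd hp.pos (by omega)
      | succ k =>
        refine (hj p hp (φ (k + 1))).subset ?_
        rintro _ ⟨⟨x, hx, rfl⟩, hq⟩
        refine ⟨⟨x, B1.anti ?_ hx, rfl⟩, hq⟩
        exact (Finset.le_sup (f := j) (Finset.mem_range.mpr (by omega))).trans
          (Nat.le_add_right _ _)
  choose ψ χ r h2 h3 using h1
  let f : G →+ (∀ n, KK n) := Pi.addMonoidHom fun i =>
    ((ψ i).prod (χ (Nat.unpair i).1 (Nat.unpair i).2) : G →+ (ℕ →₀ DD i) × AddCircle (1 : ℚ))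
  have hf : ∀ x i, f x i = 0 ↔ ψ i x = 0 ∧ χ (Nat.unpair i).1 (Nat.unpair i).2 x = 0 :=
    fun x i => Prod.ext_iff
  refine ⟨f, closedEmb B KK f (fun i x hx => (hf x i).mpr ⟨(h2 i x hx).1,
    (h2 _ x (B.anti (Nat.unpair_left_le i) hx)).2 _⟩) fun n => ?_⟩
  have step : ∀ n, ∃ N, ∀ x ∈ T n, (∀ i, i ≤ N → f x i = 0) → x ∈ B.V n := by
    intro n
    refine ⟨(Finset.range (r n)).sup (Nat.pair n) + n, fun x hx h => h3 n x hx
      ((hf x n).mp (h n (Nat.le_add_left _ _))).1 fun k hk => ?_⟩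
    have := ((hf x (Nat.pair n k)).mp (h _ ((Finset.le_sup (f := Nat.pair n)
      (Finset.mem_range.mpr hk)).trans (Nat.le_add_right _ _)))).2
    simpa using this
  induction n with
  | zero =>
    obtain ⟨N, hN⟩ := step 0
    exact ⟨N, fun x h => hN x trivial h⟩
  | succ n ih =>
    obtain ⟨N, hN⟩ := step (n + 1)
    obtain ⟨M, hM⟩ := ih
    exact ⟨max N M, fun x h => hN x (hM x fun i hi => h i (by omega)) fun i hi => h i (by omega)⟩

end Pool.Agent.H720Z.Tame
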