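import Pool.Agent.H720Z.Tame.Good

set_option autoImplicit false
set_option maxHeartbeats 400000

namespace Pool.Agent.H720Z.Tame

open Set Filter Topology MeasureTheory

/-! The first part (non-Borelness of the set of ill-founded trees, child sums) is copied from the
start file `Pool/Agent/S14362.lean`. -/

/-- Initial segments, written backwards. -/
def pre {α : Type} (x : ℕ → α) : ℕ → List α
  | 0 => []
  | n + 1 => x n :: pre x n

theorem pre_length {α : Type} (x : ℕ → α) (n : ℕ) : (pre x n).length = n := by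
  induction n with
  | zero => rfl
  | succ n ih => simp [pre, ih]

theorem pre_eq {α : Type} {x y : ℕ → α} {n : ℕ} (h : pre x n = pre y n) : ∀ i < n, x i = y i := by
  induction n with
  | zero => intro i hi; omega
  | succ n ih =>
    intro i hi
    simp only [pre, List.cons.injEq] at h
    rcases Nat.lt_succ_iff_lt_or_eq.mp hi with h1 | h1
    · exact ih h.2 i h1
    · rw [h1]; exact h.1

/-- The tree coded by `z`. -/
def Tr (z : ℕ → Bool) : Set (List ℕ) :=
  {s | z (Encodable.encode (pre z s.length, s)) = true}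

/-- The set of codes of ill-founded trees. -/
def IF : Set (ℕ → Bool) := {z | ∃ y : ℕ → ℕ, ∀ n, pre y n ∈ Tr z}

theorem measurableSet_pre (n : ℕ) (u : List Bool) : MeasurableSet {z : ℕ → Bool | pre z n = u} := by
  induction n generalizing u with
  | zero =>
    by_cases h : u = []
    · simp [pre, h]
    · have : {z : ℕ → Bool | pre z 0 = u} = ∅ := by
        ext z
        simp only [pre, mem_ofPred_eq, mem_empty_iff_false, iff_false]
        exact fun h' => h h'.symm
      rw [this]
      exact MeasurableSet.empty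
  | succ n ih =>
    cases u with
    | nil =>
      have : {z : ℕ → Bool | pre z (n + 1) = []} = ∅ := by
        ext z
        simp [pre]
      rw [this]
      exact MeasurableSet.empty
    | cons b u =>
      have : {z : ℕ → Bool | pre z (n + 1) = b :: u} =
          (fun z : ℕ → Bool => z n) ⁻¹' {b} ∩ {z | pre z n = u} := by
        ext z
        simp [pre]
      rw [this]
      exact (measurable_pi_apply n (MeasurableSet.singleton b)).inter (ih u)

theorem measurableSet_Tr (s : List ℕ) : MeasurableSet {z : ℕ → Bool | s ∈ Tr z} := by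
  have : {z : ℕ → Bool | s ∈ Tr z} = ⋃ u : List Bool,
      ({z | pre z s.length = u} ∩ (fun z : ℕ → Bool => z (Encodable.encode (u, s))) ⁻¹' {true}) := by
    ext z
    simp [Tr]
  rw [this]
  refine MeasurableSet.iUnion fun u => (measurableSet_pre _ u).inter ?_
  exact measurable_pi_apply _ (MeasurableSet.singleton true)

theorem not_measurableSet_IF : ¬ MeasurableSet IF := by
  classical
  intro hIF
  have : PolishSpace (ℕ → Bool) := ⟨⟩
  have h1 := hIF.compl.analyticSet
  rw [AnalyticSet] at h1
  rcases h1 with h1 | ⟨f, hf, hfr⟩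
  · have h2 : (fun _ : ℕ => false) ∈ IFᶜ := by
      rintro ⟨y, hy⟩
      have := hy 0
      simp [Tr] at this
    rw [h1] at h2
    exact h2
  · let R : List Bool × List ℕ → Prop := fun p =>
      ∃ y : ℕ → ℕ, pre y p.2.length = p.2 ∧ pre (f y) p.2.length = p.1
    let z0 : ℕ → Bool := fun m =>
      match (Encodable.decode m : Option (List Bool × List ℕ)) with
      | none => false
      | some p => decide (R p)
    have hz0 : ∀ p, z0 (Encodable.encode p) = true ↔ R p := by
      intro p
      have h4 := Encodable.encodek p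
      simp only [z0, h4, decide_eq_true_eq]
    have key : ∀ z : ℕ → Bool,
        (∃ y : ℕ → ℕ, ∀ n, z0 (Encodable.encode (pre z n, pre y n)) = true) ↔ z ∈ range f := by
      intro z
      constructor
      · rintro ⟨y, hy⟩
        refine ⟨y, ?_⟩
        have h3 : ∀ n, ∃ y' : ℕ → ℕ, pre y' n = pre y n ∧ pre (f y') n = pre z n := by
          intro n
          obtain ⟨y', h4, h5⟩ := (hz0 _).mp (hy n)
          simp only [pre_length] at h4 h5
          exact ⟨y', h4, h5⟩
        choose Y hY1 hY2 using h3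
        have h4 : Tendsto Y atTop (𝓝 y) := by
          rw [tendsto_pi_nhds]
          intro i
          apply tendsto_const_nhds.congr'
          filter_upwards [eventually_gt_atTop i] with n hn
          exact (pre_eq (hY1 n) i hn).symm
        have h5 : Tendsto (fun n => f (Y n)) atTop (𝓝 z) := by
          rw [tendsto_pi_nhds]
          intro i
          apply tendsto_const_nhds.congr'
          filter_upwards [eventually_gt_atTop i] with n hn
          exact (pre_eq (hY2 n) i hn).symm
        exact tendsto_nhds_unique ((hf.tendsto y).comp h4) h5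
      · rintro ⟨y, rfl⟩
        refine ⟨y, fun n => (hz0 _).mpr ⟨y, ?_, ?_⟩⟩
        · simp only [pre_length]
        · simp only [pre_length]
    have h2 : z0 ∈ IF ↔ z0 ∈ range f := by
      rw [← key]
      simp only [IF, Tr, mem_ofPred_eq, pre_length]
    rw [hfr] at h2
    by_cases h3 : z0 ∈ IF
    · exact (h2.mp h3) h3
    · exact h3 (h2.mpr h3)
/-- Sum over the children of a node. -/
noncomputable def sg (s : List ℕ) (d : List ℕ →₀ ℤ) : ℤ := ∑ᶠ i : ℕ, d (i :: s)

theorem sg_fin (s : List ℕ) (d : List ℕ →₀ ℤ) :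
    (Function.support fun i : ℕ => d (i :: s)).Finite := by
  have h1 : ((fun i : ℕ => i :: s) ⁻¹' (d.support : Set (List ℕ))).Finite := by
    apply Set.Finite.preimage _ d.support.finite_toSet
    intro a _ b _ h
    simpa using h
  apply h1.subset
  intro i hi
  simpa using hi

theorem sg_add (s : List ℕ) (d d' : List ℕ →₀ ℤ) : sg s (d + d') = sg s d + sg s d' := by
  unfold sg
  rw [← finsum_add_distrib (sg_fin s d) (sg_fin s d')]
  rfl

theorem sg_neg (s : List ℕ) (d : List ℕ →₀ ℤ) : sg s (-d) = - sg s d := by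
  have h := sg_add s d (-d)
  rw [add_neg_cancel] at h
  have h0 : sg s 0 = 0 := by simp [sg]
  rw [h0] at h
  linarith

open Classical in
/-- The finite piece of a branch. -/
noncomputable def db (β : ℕ → ℕ) (n : ℕ) : List ℕ →₀ ℤ :=
  Finsupp.onFinset ((Finset.range (n + 1)).image (pre β))
    (fun s => if s.length ≤ n ∧ s = pre β s.length then 1 else 0) (by
      intro s hs
      have h1 : s.length ≤ n ∧ s = pre β s.length := by
        by_contra h
        exact hs (if_neg h)
      rw [Finset.mem_image]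
      exact ⟨s.length, Finset.mem_range.mpr (Nat.lt_succ_of_le h1.1), h1.2.symm⟩)

open Classical in
theorem db_apply (β : ℕ → ℕ) (n : ℕ) (s : List ℕ) :
    db β n s = if s.length ≤ n ∧ s = pre β s.length then 1 else 0 := rfl

theorem sg_db (β : ℕ → ℕ) (n : ℕ) (s : List ℕ) (hs : s.length < n) :
    sg s (db β n) = db β n s := by
  classical
  unfold sg
  rw [finsum_eq_single _ (β s.length)]
  · rw [db_apply, db_apply]
    congr 1
    simp only [List.length_cons, pre, List.cons.injEq, true_and, eq_iff_iff]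
    constructor
    · rintro ⟨h1, h2⟩
      exact ⟨by omega, h2⟩
    · rintro ⟨h1, h2⟩
      exact ⟨by omega, h2⟩
  · intro i hi
    rw [db_apply, if_neg]
    rintro ⟨-, h2⟩
    simp only [List.length_cons, pre, List.cons.injEq] at h2
    exact hi h2.1

theorem mem_IF_of_alive {J : Type} (lab : J → ℕ) (alive : List J → Prop) (z : ℕ → Bool)
    (h0 : alive []) (h1 : ∀ s, alive s → s.map lab ∈ Tr z) (h2 : ∀ s, alive s → ∃ i, alive (i :: s)) :
    z ∈ IF := by
  choose g hg using h2
  let t : ℕ → {s // alive s} := fun n => Nat.rec ⟨[], h0⟩ (fun _ s => ⟨g s.1 s.2 :: s.1, hg s.1 s.2⟩) n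
  have ht : ∀ n, (t (n + 1)).1 = g (t n).1 (t n).2 :: (t n).1 := fun n => rfl
  refine ⟨fun n => lab (g (t n).1 (t n).2), fun n => ?_⟩
  have hpre : pre (fun n => lab (g (t n).1 (t n).2)) n = (t n).1.map lab := by
    induction n with
    | zero => rfl
    | succ n ih =>
      rw [ht, List.map_cons, ← ih]
      rfl
  rw [hpre]
  exact h1 _ (t n).2

variable {G : Type} [AddCommGroup G] [TopologicalSpace G] [PolishSpace G] [IsTopologicalAddGroup G]

theorem wild0 (hG : IsTame G) (B : Basis G) {Y : Type} [MeasurableSpace Y] (S C : Y → ℕ → Set G)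
    (mS : ∀ g m, MeasurableSet {y | g ∈ S y m}) (mC : ∀ g m, MeasurableSet {y | g ∈ C y m})
    (sS : ∀ y m, Sat (B.V m) (S y m)) (sC : ∀ y m, Sat (B.V m) (C y m))
    (h0 : ∀ y m, (0 : G) ∈ S y m)
    (hSC : ∀ y m, ∀ g ∈ C y m, ∀ h, h ∈ C y m ↔ h - g ∈ S y m) :
    MeasurableSet {y | ∃ g, ∀ m, g ∈ C y m} := by
  classical
  haveI : ∀ m, Countable (G ⧸ B.V m) := fun m => countable_quot _ (B.isOpen m)
  haveI : ∀ m, DiscreteTopology (G ⧸ B.V m) := fun m =>
    QuotientAddGroup.discreteTopology (B.isOpen m)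
  let X : Type := (Σ m, G ⧸ B.V m) → Bool
  letI : AddAction G X :=
    { vadd := fun g x i => x ⟨i.1, i.2 - QuotientAddGroup.mk g⟩
      zero_vadd := fun x => funext fun i => by
        change x ⟨i.1, i.2 - QuotientAddGroup.mk 0⟩ = x i
        simp
      add_vadd := fun g h x => funext fun i => by
        change x ⟨i.1, i.2 - QuotientAddGroup.mk (g + h)⟩ =
          x ⟨i.1, i.2 - QuotientAddGroup.mk g - QuotientAddGroup.mk h⟩
        rw [QuotientAddGroup.mk_add, sub_sub] }
  have hv : ∀ (g : G) (x : X) i, (g +ᵥ x) i = x ⟨i.1, i.2 - QuotientAddGroup.mk g⟩ :=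
    fun _ _ _ => rfl
  haveI : ContinuousVAdd G X := ⟨by
    refine continuous_pi fun i => ?_
    have h1 : Continuous fun p : (G ⧸ B.V i.1) × X => p.2 ⟨i.1, p.1⟩ := by
      rw [continuous_prod_of_discrete_left]
      intro q
      exact continuous_apply (⟨i.1, q⟩ : Σ m, G ⧸ B.V m)
    have h2 : Continuous fun p : G × X =>
        ((i.2 - QuotientAddGroup.mk p.1, p.2) : (G ⧸ B.V i.1) × X) := by
      refine Continuous.prodMk ?_ continuous_snd
      exact (continuous_of_discreteTopology (f := fun q : G ⧸ B.V i.1 => i.2 - q)).comp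
        (QuotientAddGroup.continuous_mk.comp continuous_fst)
    exact h1.comp h2⟩
  haveI : PolishSpace X := ⟨⟩
  have h1 := hG X
  rw [← BorelSpace.measurable_eq (α := X × X)] at h1
  let F : (Y → ℕ → Set G) → Y → X := fun S y i => decide (i.2.out ∈ S y i.1)
  have mF : ∀ S : Y → ℕ → Set G, (∀ g m, MeasurableSet {y | g ∈ S y m}) → Measurable (F S) := by
    intro S mS
    refine measurable_pi_lambda _ fun i => ?_
    refine measurable_to_bool ?_
    have : (fun y => F S y i) ⁻¹' {true} = {y | i.2.out ∈ S y i.1} := by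
      ext y
      simp [F]
    rw [this]
    exact mS _ _
  have hF : ∀ S : Y → ℕ → Set G, (∀ y m, Sat (B.V m) (S y m)) → ∀ y m g,
      F S y ⟨m, QuotientAddGroup.mk g⟩ = decide (g ∈ S y m) := by
    intro S sS y m g
    have h2 : (QuotientAddGroup.mk g : G ⧸ B.V m) =
        QuotientAddGroup.mk (QuotientAddGroup.mk g : G ⧸ B.V m).out := by simp
    have h3 := QuotientAddGroup.eq.mp h2
    have h4 := QuotientAddGroup.eq.mp h2.symm
    rw [neg_add_eq_sub] at h3 h4
    simp only [F, decide_eq_decide]
    exact ⟨fun h => sS y m _ h _ h4, fun h => sS y m _ h _ h3⟩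
  have h2 := ((mF S mS).prodMk (mF C mC)) h1
  convert h2 using 1
  ext y
  simp only [mem_setOf_eq, mem_preimage]
  refine exists_congr fun g => ?_
  constructor
  · intro h
    funext i
    obtain ⟨m, q⟩ := i
    obtain ⟨x, rfl⟩ := QuotientAddGroup.mk_surjective q
    rw [hv]
    simp only
    rw [← QuotientAddGroup.mk_sub, hF S sS, hF C sC, decide_eq_decide]
    exact (hSC y m g (h m) x).symm
  · intro h m
    have h3 := congrFun h ⟨m, QuotientAddGroup.mk g⟩
    rw [hv] at h3
    simp only at h3
    rw [← QuotientAddGroup.mk_sub, hF S sS, hF C sC, decide_eq_decide, sub_self] at h3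
    exact h3.mp (h0 y m)

theorem wild (hG : IsTame G) (B : Basis G) {Y : Type} [MeasurableSpace Y] {Γ : Type}
    [AddCommGroup Γ] [Countable Γ] (σ : Γ →+ G) (P Q : Y → ℕ → Γ → Prop)
    (mP : ∀ c m, MeasurableSet {y | P y m c}) (mQ : ∀ c m, MeasurableSet {y | Q y m c})
    (h0 : ∀ y m, Q y m 0) (h1 : ∀ y m c d, P y m c → Q y m d → P y m (d + c))
    (h2 : ∀ y m c d, P y m c → P y m d → Q y m (d - c)) :
    MeasurableSet {y | ∃ g, ∀ m, ∃ c, P y m c ∧ g - σ c ∈ B.V m} := by
  have mm : ∀ P : Y → ℕ → Γ → Prop, (∀ c m, MeasurableSet {y | P y m c}) → ∀ g m,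
      MeasurableSet {y | g ∈ {g | ∃ c, P y m c ∧ g - σ c ∈ B.V m}} := by
    intro P mP g m
    change MeasurableSet {y | ∃ c, P y m c ∧ g - σ c ∈ B.V m}
    rw [setOf_exists]
    exact MeasurableSet.iUnion fun c => (mP c m).inter (MeasurableSet.const _)
  have ss : ∀ P : Y → ℕ → Γ → Prop, ∀ y m,
      Sat (B.V m) {g | ∃ c, P y m c ∧ g - σ c ∈ B.V m} := by
    rintro P y m a ⟨c, hc, hc'⟩ b hb
    refine ⟨c, hc, ?_⟩
    simpa using (B.V m).add_mem hb hc'
  refine wild0 hG B (fun y m => {g | ∃ c, Q y m c ∧ g - σ c ∈ B.V m})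
    (fun y m => {g | ∃ c, P y m c ∧ g - σ c ∈ B.V m}) (mm Q mQ) (mm P mP) (ss Q) (ss P)
    (fun y m => ⟨0, h0 y m, by simp⟩) ?_
  rintro y m g ⟨c, hc, hc'⟩ h
  constructor
  · rintro ⟨d, hd, hd'⟩
    refine ⟨d - c, h2 y m c d hc hd, ?_⟩
    have : h - g - σ (d - c) = (h - σ d) - (g - σ c) := by rw [map_sub]; abel
    rw [this]
    exact (B.V m).sub_mem hd' hc'
  · rintro ⟨d, hd, hd'⟩
    refine ⟨d + c, h1 y m c d hc hd, ?_⟩
    have : h - σ (d + c) = (h - g - σ d) + (g - σ c) := by rw [map_add]; abel
    rw [this]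
    exact (B.V m).add_mem hd' hc'

end Pool.Agent.H720Z.Tame
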